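import Pool.Agent.Q295.PL.Stm2

/-!
# Project LC2, job CHN: the mean over a box and the mean over the torus
-/

set_option autoImplicit false

namespace Pool.Agent.Q14.PL

open Finset Q292.LC Q295.PL

variable {d L : ℕ} [NeZero L]

/-- the sum of the squared differences for a shift -/
def DD (g : (Fin d → ZMod L) → ℝ) (v : Fin d → ZMod L) : ℝ := ∑ x, (g (x + v) - g x) ^ 2

theorem gE_nonneg (g : (Fin d → ZMod L) → ℝ) : 0 ≤ gE g := sum_nonneg fun _ _ => sq_nonneg _

theorem step_le (g : (Fin d → ZMod L) → ℝ) (v : Fin d → ZMod L) (i : Fin d) :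
    ∑ x, (g (x + v + Pi.single i 1) - g (x + v)) ^ 2 ≤ gE g := by
  have h1 : ∑ x, (g (x + v + Pi.single i 1) - g (x + v)) ^ 2 =
      ∑ x, (g (x + Pi.single i 1) - g x) ^ 2 :=
    Equiv.sum_comp (Equiv.addRight v) (fun x => (g (x + Pi.single i 1) - g x) ^ 2)
  rw [h1]
  unfold gE
  rw [Fintype.sum_prod_type]
  refine sum_le_sum fun x _ => ?_
  refine le_trans (le_of_eq ?_) (single_le_sum (f := fun j : Fin d =>
    (g (ed (x, j)).1 - g (ed (x, j)).2) ^ 2) (fun _ _ => sq_nonneg _) (mem_univ i))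
  have h2 : (ed (x, i)).2 = x + Pi.single i 1 := by
    unfold ed
    funext j
    by_cases hj : j = i
    · subst hj
      simp
    · simp [Function.update_of_ne hj, Pi.single_eq_of_ne hj]
  have h3 : (ed (x, i)).1 = x := rfl
  show _ = (g (ed (x, i)).1 - g (ed (x, i)).2) ^ 2
  rw [h2, h3]
  ring

theorem shift_one (g : (Fin d → ZMod L) → ℝ) (v : Fin d → ZMod L) (M : ℕ)
    (h : DD g v ≤ (M : ℝ) ^ 2 * gE g) (i : Fin d) :
    DD g (v + Pi.single i 1) ≤ ((M + 1 : ℕ) : ℝ) ^ 2 * gE g := by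
  have hst := step_le g v i
  have hE := gE_nonneg g
  have hM : (0 : ℝ) ≤ M := Nat.cast_nonneg M
  have e0 : DD g (v + Pi.single i 1) = ∑ x, ((g (x + v) - g x) +
      (g (x + v + Pi.single i 1) - g (x + v))) ^ 2 := by
    unfold DD
    refine sum_congr rfl fun x _ => ?_
    rw [← add_assoc]
    ring
  rcases Nat.eq_zero_or_pos M with h0 | h0
  · subst h0
    have h1 : DD g v = 0 := by
      refine le_antisymm ?_ (sum_nonneg fun _ _ => sq_nonneg _)
      refine h.trans (le_of_eq ?_)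
      norm_num
    have h2 : ∀ x, g (x + v) - g x = 0 := fun x => by
      have := (sum_eq_zero_iff_of_nonneg (fun x _ => sq_nonneg (g (x + v) - g x))).1 h1 x
        (mem_univ x)
      exact pow_eq_zero_iff (two_ne_zero) |>.1 this
    rw [e0]
    have h3 : ∀ x ∈ (univ : Finset (Fin d → ZMod L)), ((g (x + v) - g x) +
        (g (x + v + Pi.single i 1) - g (x + v))) ^ 2 =
        (g (x + v + Pi.single i 1) - g (x + v)) ^ 2 := fun x _ => by rw [h2, zero_add]
    rw [sum_congr rfl h3]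
    refine hst.trans (le_of_eq ?_)
    norm_num
  · have hM0 : (0 : ℝ) < M := by exact_mod_cast h0
    have h4 : (M : ℝ) * DD g (v + Pi.single i 1) ≤ (M + 1) * DD g v +
        M * (M + 1) * ∑ x, (g (x + v + Pi.single i 1) - g (x + v)) ^ 2 := by
      rw [e0]
      unfold DD
      rw [mul_sum, mul_sum, mul_sum, ← sum_add_distrib]
      refine sum_le_sum fun x _ => ?_
      nlinarith [sq_nonneg ((g (x + v) - g x) - M * (g (x + v + Pi.single i 1) - g (x + v)))]
    have h5 : (M : ℝ) * DD g (v + Pi.single i 1) ≤ M * (((M + 1 : ℕ) : ℝ) ^ 2 * gE g) := by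
      refine h4.trans ?_
      have h6 : ((M : ℝ) + 1) * DD g v ≤ (M + 1) * ((M : ℝ) ^ 2 * gE g) :=
        mul_le_mul_of_nonneg_left h (by positivity)
      have h7 : (M : ℝ) * (M + 1) * ∑ x, (g (x + v + Pi.single i 1) - g (x + v)) ^ 2 ≤
          M * (M + 1) * gE g := mul_le_mul_of_nonneg_left hst (by positivity)
      refine (add_le_add h6 h7).trans (le_of_eq ?_)
      push_cast
      ring
    exact le_of_mul_le_mul_left h5 hM0

theorem shift_many (g : (Fin d → ZMod L) → ℝ) (v : Fin d → ZMod L) (M : ℕ)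
    (h : DD g v ≤ (M : ℝ) ^ 2 * gE g) (i : Fin d) (t : ℕ) :
    DD g (v + Pi.single i (t : ZMod L)) ≤ ((M + t : ℕ) : ℝ) ^ 2 * gE g := by
  induction t with
  | zero => simpa using h
  | succ t ih =>
    have h1 := shift_one g _ _ ih i
    have h2 : v + Pi.single i (t : ZMod L) + Pi.single i 1 =
        v + Pi.single i ((t + 1 : ℕ) : ZMod L) := by
      rw [add_assoc, ← Pi.single_add]
      push_cast
      rfl
    rw [h2] at h1
    exact h1

theorem shift_vec (g : (Fin d → ZMod L) → ℝ) (n : Fin d → ℕ) (N : ℕ) (hn : ∀ i, n i ≤ N) :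
    DD g (fun i => (n i : ZMod L)) ≤ ((d : ℝ) * N) ^ 2 * gE g := by
  classical
  have h1 : ∀ s : Finset (Fin d), DD g (∑ i ∈ s, Pi.single i ((n i : ℕ) : ZMod L)) ≤
      ((∑ i ∈ s, n i : ℕ) : ℝ) ^ 2 * gE g := by
    intro s
    induction s using Finset.induction_on with
    | empty => simp [DD]
    | insert a s ha ih =>
      rw [sum_insert ha, sum_insert ha, add_comm, add_comm (n a)]
      exact shift_many g _ _ ih a (n a)
  have h2 := h1 univ
  have h3 : ∑ i : Fin d, Pi.single i ((n i : ℕ) : ZMod L) = fun i => (n i : ZMod L) :=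
    Finset.univ_sum_single (fun i => ((n i : ℕ) : ZMod L))
  rw [h3] at h2
  refine h2.trans (mul_le_mul_of_nonneg_right ?_ (gE_nonneg g))
  refine pow_le_pow_left₀ (Nat.cast_nonneg _) ?_ 2
  have h4 : ∑ i : Fin d, n i ≤ d * N := by
    have := sum_le_card_nsmul (univ : Finset (Fin d)) n N fun i _ => hn i
    simpa using this
  exact_mod_cast h4

/-- the mean over a box -/
noncomputable def hh (g : (Fin d → ZMod L) → ℝ) (R : ℕ) (z : Fin d → ZMod L) : ℝ :=
  (∑ a : Fin d → Fin R, g (z + fun i => ((a i : ℕ) : ZMod L))) / (R : ℝ) ^ d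

theorem inj_box (R : ℕ) (hR : R ≤ L) (z : Fin d → ZMod L) :
    Function.Injective (fun a : Fin d → Fin R => z + fun i => ((a i : ℕ) : ZMod L)) := by
  intro a b hab
  have h1 := add_left_cancel hab
  funext i
  have h2 := congrFun h1 i
  have h3 := congrArg ZMod.val h2
  rw [ZMod.val_natCast_of_lt ((a i).2.trans_le hR), ZMod.val_natCast_of_lt ((b i).2.trans_le hR)] at h3
  exact Fin.ext h3

theorem box_sum (g : (Fin d → ZMod L) → ℝ) (R : ℕ) (hR : R ≤ L) (z : Fin d → ZMod L) :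
    ∑ x ∈ Q292.LC.box z R, g x = ∑ a : Fin d → Fin R, g (z + fun i => ((a i : ℕ) : ZMod L)) := by
  classical
  rw [← sum_image (s := (univ : Finset (Fin d → Fin R))) (g := fun a => z + fun i => ((a i : ℕ) : ZMod L))
    (f := g) (fun a _ b _ hab => inj_box R hR z hab)]
  refine sum_congr ?_ fun _ _ => rfl
  ext x
  unfold Q292.LC.box
  rw [mem_filter, mem_image]
  constructor
  · rintro ⟨-, h⟩
    refine ⟨fun i => ⟨(x i - z i).val, h i⟩, mem_univ _, ?_⟩
    funext i
    simp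
  · rintro ⟨a, -, rfl⟩
    refine ⟨mem_univ _, fun i => ?_⟩
    have : (z + fun i => ((a i : ℕ) : ZMod L)) i - z i = ((a i : ℕ) : ZMod L) := by
      simp
    rw [this, ZMod.val_natCast_of_lt ((a i).2.trans_le hR)]
    exact (a i).2

theorem sq_mean_le {ι : Type} [Fintype ι] [Nonempty ι] (f : ι → ℝ) (B : ℝ) (h : ∀ i, f i ^ 2 ≤ B) :
    ((∑ i, f i) / (Fintype.card ι : ℝ)) ^ 2 ≤ B := by
  have hc : (0 : ℝ) < Fintype.card ι := by exact_mod_cast Fintype.card_pos
  have h1 := sq_sum_le_card_mul_sum_sq (s := (univ : Finset ι)) (f := f)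
  rw [card_univ] at h1
  have h2 : ∑ i, f i ^ 2 ≤ Fintype.card ι * B := by
    have := sum_le_card_nsmul (univ : Finset ι) (fun i => f i ^ 2) B fun i _ => h i
    rwa [card_univ, nsmul_eq_mul] at this
  rw [div_pow, div_le_iff₀ (by positivity)]
  calc (∑ i, f i) ^ 2 ≤ Fintype.card ι * ∑ i, f i ^ 2 := h1
    _ ≤ Fintype.card ι * (Fintype.card ι * B) := mul_le_mul_of_nonneg_left h2 hc.le
    _ = B * (Fintype.card ι : ℝ) ^ 2 := by ring

/-- shifts of the box mean -/
theorem hh_shift (g : (Fin d → ZMod L) → ℝ) (R N : ℕ) (hR1 : 1 ≤ R) (hR : R ≤ L)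
    (z : Fin d → ZMod L) (n : Fin d → ℕ) (hn : ∀ i, n i ≤ N) :
    (hh g R (z + fun i => (n i : ZMod L)) - hh g R z) ^ 2 ≤
      ((d : ℝ) * N) ^ 2 / (R : ℝ) ^ d * gE g := by
  have hR0 : (0 : ℝ) < R := by exact_mod_cast hR1
  have e1 : hh g R (z + fun i => (n i : ZMod L)) - hh g R z =
      (∑ a : Fin d → Fin R, (g (z + (fun i => ((a i : ℕ) : ZMod L)) + fun i => (n i : ZMod L)) -
        g (z + fun i => ((a i : ℕ) : ZMod L)))) / (R : ℝ) ^ d := by
    unfold hh
    rw [← sub_div, ← sum_sub_distrib]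
    congr 1
    refine sum_congr rfl fun a _ => ?_
    rw [add_right_comm]
  rw [e1, div_pow]
  have h1 := sq_sum_le_card_mul_sum_sq (s := (univ : Finset (Fin d → Fin R)))
    (f := fun a => g (z + (fun i => ((a i : ℕ) : ZMod L)) + fun i => (n i : ZMod L)) -
        g (z + fun i => ((a i : ℕ) : ZMod L)))
  have hcard : (((univ : Finset (Fin d → Fin R)).card : ℕ) : ℝ) = (R : ℝ) ^ d := by
    rw [card_univ, Fintype.card_fun, Fintype.card_fin, Fintype.card_fin]
    push_cast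
    rfl
  rw [hcard] at h1
  have h2 : ∑ a : Fin d → Fin R, (g (z + (fun i => ((a i : ℕ) : ZMod L)) +
      fun i => (n i : ZMod L)) - g (z + fun i => ((a i : ℕ) : ZMod L))) ^ 2 ≤
      ((d : ℝ) * N) ^ 2 * gE g := by
    refine le_trans ?_ (shift_vec g n N hn)
    unfold DD
    rw [← sum_image (s := (univ : Finset (Fin d → Fin R)))
      (g := fun a => z + fun i => ((a i : ℕ) : ZMod L))
      (f := fun x => (g (x + fun i => (n i : ZMod L)) - g x) ^ 2)
      (fun a _ b _ hab => inj_box R hR z hab)]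
    exact sum_le_sum_of_subset_of_nonneg (subset_univ _) fun _ _ _ => sq_nonneg _
  rw [div_le_iff₀ (by positivity)]
  refine h1.trans ((mul_le_mul_of_nonneg_left h2 (by positivity)).trans (le_of_eq ?_))
  field_simp

/-- doubling -/
theorem hh_double (g : (Fin d → ZMod L) → ℝ) (R : ℕ) (hR1 : 1 ≤ R) (z : Fin d → ZMod L) :
    hh g (2 * R) z = (∑ ε : Fin d → Fin 2,
      hh g R (z + fun i => (((ε i : ℕ) * R : ℕ) : ZMod L))) / (2 : ℝ) ^ d := by
  have hR0 : (0 : ℝ) < R := by exact_mod_cast hR1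
  unfold hh
  rw [← sum_div, div_div]
  have e1 : ((2 * R : ℕ) : ℝ) ^ d = (R : ℝ) ^ d * 2 ^ d := by
    push_cast
    rw [mul_pow]
    ring
  rw [e1]
  congr 1
  have e2 := Equiv.sum_comp
    (((Equiv.arrowProdEquivProdArrow (Fin d) (fun _ => Fin 2) (fun _ => Fin R)).symm).trans
      (Equiv.arrowCongr (Equiv.refl (Fin d)) (finProdFinEquiv (m := 2) (n := R))))
    (fun a : Fin d → Fin (2 * R) => g (z + fun i => ((a i : ℕ) : ZMod L)))
  rw [← e2, Fintype.sum_prod_type]
  refine sum_congr rfl fun ε _ => sum_congr rfl fun a _ => ?_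
  congr 1
  rw [add_assoc]
  congr 1
  funext i
  simp [Equiv.arrowProdEquivProdArrow, finProdFinEquiv]
  ring

theorem hh_mean (g : (Fin d → ZMod L) → ℝ) (R : ℕ) (hR1 : 1 ≤ R) :
    ∑ z, hh g R z = ∑ x, g x := by
  have hR0 : (0 : ℝ) < R := by exact_mod_cast hR1
  unfold hh
  rw [← sum_div, sum_comm]
  have h1 : ∀ a ∈ (univ : Finset (Fin d → Fin R)),
      ∑ z, g (z + fun i => ((a i : ℕ) : ZMod L)) = ∑ x, g x := fun a _ =>
    Equiv.sum_comp (Equiv.addRight (fun i => ((a i : ℕ) : ZMod L))) g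
  rw [sum_congr rfl h1, sum_const, card_univ, Fintype.card_fun, Fintype.card_fin,
    Fintype.card_fin, nsmul_eq_mul]
  push_cast
  field_simp

theorem chn : S_CHN := by
  intro d hd
  refine ⟨4 * (d : ℝ) ^ 2, ?_, ?_⟩
  · have : (2 : ℝ) ≤ d := by exact_mod_cast hd
    nlinarith
  intro L _ hL z r hr1 hrL g
  have hd0 : (0 : ℝ) ≤ d := Nat.cast_nonneg d
  have hE := gE_nonneg g
  obtain ⟨B, hB⟩ : ∃ B : ℝ, B = d * √(gE g) := ⟨_, rfl⟩
  have hB0 : 0 ≤ B := by rw [hB]; positivity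
  have hBsq : B ^ 2 = (d : ℝ) ^ 2 * gE g := by
    rw [hB, mul_pow, Real.sq_sqrt hE]
  obtain ⟨μ, hμ⟩ : ∃ μ : ℝ, μ = (∑ x, g x) / (L : ℝ) ^ d := ⟨_, rfl⟩
  have hL0 : (0 : ℝ) < L := by
    have : 0 < L := by omega
    exact_mod_cast this
  -- the last step
  have hlast : ∀ R : ℕ, 1 ≤ R → R ≤ L → L < 2 * R → |hh g R z - μ| ≤ 2 * B := by
    intro R hR1 hRL hLR
    have hR0 : (0 : ℝ) < R := by exact_mod_cast hR1
    have h1 : ∀ z' : Fin d → ZMod L, (hh g R z' - hh g R z) ^ 2 ≤ (2 * B) ^ 2 := by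
      intro z'
      have h2 := hh_shift g R L hR1 hRL z (fun i => (z' i - z i).val)
        (fun i => (ZMod.val_lt _).le)
      have h3 : (z + fun i => (((z' i - z i).val : ℕ) : ZMod L)) = z' := by
        funext i
        simp
      rw [h3] at h2
      refine h2.trans ?_
      have h4 : ((d : ℝ) * L) ^ 2 / (R : ℝ) ^ d ≤ 4 * (d : ℝ) ^ 2 := by
        rw [div_le_iff₀ (by positivity), mul_pow]
        have h5 : (L : ℝ) ^ 2 ≤ 4 * (R : ℝ) ^ 2 := by
          have : (L : ℝ) ≤ 2 * R := by exact_mod_cast hLR.le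
          nlinarith
        have h6 : (R : ℝ) ^ 2 ≤ (R : ℝ) ^ d :=
          pow_le_pow_right₀ (by exact_mod_cast hR1) hd
        calc (d : ℝ) ^ 2 * (L : ℝ) ^ 2 ≤ (d : ℝ) ^ 2 * (4 * (R : ℝ) ^ d) :=
              mul_le_mul_of_nonneg_left (by linarith) (by positivity)
          _ = 4 * (d : ℝ) ^ 2 * (R : ℝ) ^ d := by ring
      calc ((d : ℝ) * L) ^ 2 / (R : ℝ) ^ d * gE g ≤ 4 * (d : ℝ) ^ 2 * gE g :=
            mul_le_mul_of_nonneg_right h4 hE
        _ = (2 * B) ^ 2 := by rw [mul_pow, hBsq]; ring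
    have h7 := sq_mean_le (fun z' => hh g R z' - hh g R z) ((2 * B) ^ 2) h1
    have hc : (Fintype.card (Fin d → ZMod L) : ℝ) = (L : ℝ) ^ d := by
      rw [Fintype.card_fun, ZMod.card, Fintype.card_fin]
      push_cast
      rfl
    rw [sum_sub_distrib, sum_const, card_univ, nsmul_eq_mul, hc, hh_mean g R hR1, sub_div,
      mul_div_assoc, mul_div_cancel₀ _ (by positivity), ← hμ] at h7
    have h8 := abs_le_of_sq_le_sq h7 (by positivity)
    rwa [abs_sub_comm] at h8
  -- doubling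
  have hdbl : ∀ R : ℕ, 1 ≤ R → 2 * R ≤ L → |hh g (2 * R) z - hh g R z| ≤ B := by
    intro R hR1 hRL
    have hR0 : (0 : ℝ) < R := by exact_mod_cast hR1
    have h1 : ∀ ε : Fin d → Fin 2,
        (hh g R (z + fun i => (((ε i : ℕ) * R : ℕ) : ZMod L)) - hh g R z) ^ 2 ≤ B ^ 2 := by
      intro ε
      have h2 := hh_shift g R R hR1 (by omega) z (fun i => (ε i : ℕ) * R) (fun i => by
        have : (ε i : ℕ) ≤ 1 := by have := (ε i).2; omega
        calc (ε i : ℕ) * R ≤ 1 * R := Nat.mul_le_mul_right R this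
          _ = R := one_mul R)
      refine h2.trans ?_
      have h4 : ((d : ℝ) * R) ^ 2 / (R : ℝ) ^ d ≤ (d : ℝ) ^ 2 := by
        rw [div_le_iff₀ (by positivity), mul_pow]
        have h6 : (R : ℝ) ^ 2 ≤ (R : ℝ) ^ d :=
          pow_le_pow_right₀ (by exact_mod_cast hR1) hd
        exact mul_le_mul_of_nonneg_left h6 (by positivity)
      rw [hBsq]
      exact mul_le_mul_of_nonneg_right h4 hE
    have h7 := sq_mean_le (fun ε : Fin d → Fin 2 =>
      hh g R (z + fun i => (((ε i : ℕ) * R : ℕ) : ZMod L)) - hh g R z) (B ^ 2) h1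
    have hc : (Fintype.card (Fin d → Fin 2) : ℝ) = (2 : ℝ) ^ d := by
      rw [Fintype.card_fun, Fintype.card_fin, Fintype.card_fin]
      push_cast
      rfl
    rw [sum_sub_distrib, sum_const, card_univ, nsmul_eq_mul, hc, sub_div,
      mul_div_assoc, mul_div_cancel₀ _ (by positivity), ← hh_double g R hR1 z] at h7
    exact abs_le_of_sq_le_sq h7 hB0
  -- induction
  have hind : ∀ j R : ℕ, 1 ≤ R → R ≤ L → L < 2 ^ (j + 1) * R → |hh g R z - μ| ≤ (j + 2) * B := by
    intro j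
    induction j with
    | zero =>
      intro R h1 h2 h3
      have := hlast R h1 h2 (by simpa using h3)
      simpa using this
    | succ j ih =>
      intro R h1 h2 h3
      rcases Nat.lt_or_ge L (2 * R) with h4 | h4
      · refine (hlast R h1 h2 h4).trans ?_
        push_cast
        have : (0 : ℝ) ≤ j := Nat.cast_nonneg j
        nlinarith
      · have h5 := ih (2 * R) (by omega) h4 (by
          calc L < 2 ^ (j + 1 + 1) * R := h3
            _ = 2 ^ (j + 1) * (2 * R) := by ring)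
        have h6 := hdbl R h1 h4
        have h7 : |hh g R z - μ| ≤ |hh g (2 * R) z - hh g R z| + |hh g (2 * R) z - μ| := by
          have : hh g R z - μ = -(hh g (2 * R) z - hh g R z) + (hh g (2 * R) z - μ) := by ring
          rw [this]
          refine (abs_add_le _ _).trans ?_
          rw [abs_neg]
        push_cast
        linarith
  have hlt : L < 2 ^ (Nat.log 2 L + 1) * r := by
    have h1 := Nat.lt_pow_succ_log_self (b := 2) (by norm_num) L
    calc L < 2 ^ (Nat.log 2 L + 1) := h1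
      _ ≤ 2 ^ (Nat.log 2 L + 1) * r := Nat.le_mul_of_pos_right _ hr1
  have hfin := hind (Nat.log 2 L) r hr1 hrL hlt
  have hlog : (Nat.log 2 L : ℝ) + 2 ≤ 2 * (1 + Real.log L) := by
    have h1 : 2 ^ Nat.log 2 L ≤ L := Nat.pow_log_le_self 2 (by omega)
    have h2 : ((2 : ℝ)) ^ Nat.log 2 L ≤ L := by exact_mod_cast h1
    have h3 := Real.log_le_log (by positivity) h2
    rw [Real.log_pow] at h3
    have h4 : (1 / 2 : ℝ) ≤ Real.log 2 := by
      have := Real.log_two_gt_d9
      linarith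
    have h5 : (0 : ℝ) ≤ (Nat.log 2 L : ℝ) := Nat.cast_nonneg _
    nlinarith
  have hl0 : 0 ≤ Real.log L := Real.log_natCast_nonneg L
  rw [box_sum g r hrL z]
  have e1 : (∑ a : Fin d → Fin r, g (z + fun i => ((a i : ℕ) : ZMod L))) / (r : ℝ) ^ d -
      (∑ x, g x) / (L : ℝ) ^ d = hh g r z - μ := by
    rw [hμ]
    rfl
  rw [e1, ← sq_abs]
  calc |hh g r z - μ| ^ 2 ≤ (2 * (1 + Real.log L) * B) ^ 2 :=
        pow_le_pow_left₀ (abs_nonneg _) (hfin.trans (mul_le_mul_of_nonneg_right hlog hB0)) 2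
    _ = 4 * (d : ℝ) ^ 2 * (1 + Real.log L) ^ 2 * gE g := by
        rw [mul_pow, hBsq]
        ring

end Pool.Agent.Q14.PL
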