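import Pool.Agent.Q295.PL.Stm2
import Pool.Agent.Q38.L2.Dec

/-!
# Project LC2, job LMT: averages along a doubly stochastic matrix
-/

set_option autoImplicit false

namespace Pool.Agent.Q14.PL

open Finset Matrix Q292.LC Q295.PL

section gen

variable {V : Type} [Fintype V] [DecidableEq V]

theorem cs_sum (s : Finset V) (a b : V → ℝ) :
    (∑ x ∈ s, a x * b x) ^ 2 ≤ (∑ x ∈ s, a x ^ 2) * ∑ x ∈ s, b x ^ 2 :=
  sum_mul_sq_le_sq_mul_sq s a b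

/-- contraction -/
theorem contr (T : Matrix V V ℝ) (F : V → ℝ) (h0 : ∀ x y, 0 ≤ T x y) (h1 : ∀ x, ∑ y, T x y = 1)
    (h2 : ∀ y, ∑ x, T x y = 1) : ∑ x, ((T *ᵥ F) x) ^ 2 ≤ ∑ x, (F x) ^ 2 := by
  have h := (Pool.Agent.Q38.L2.jen V T F h0 h1 h2).1
  have h3 : 0 ≤ ∑ x, ∑ z, T x z * (F z - (T *ᵥ F) x) ^ 2 :=
    sum_nonneg fun x _ => sum_nonneg fun z _ => mul_nonneg (h0 _ _) (sq_nonneg _)
  linarith

theorem energy (T : Matrix V V ℝ) (f : V → ℝ) (h0 : ∀ x y, 0 ≤ T x y) (h1 : ∀ x, ∑ y, T x y = 1)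
    (h2 : ∀ y, ∑ x, T x y = 1) : ∑ x, (f x - (T *ᵥ f) x) ^ 2 ≤ ∑ x, ∑ y, T x y * (f x - f y) ^ 2 ∧
      ∑ x, (f x) ^ 2 - ∑ x, ((T *ᵥ f) x) ^ 2 ≤ ∑ x, ∑ y, T x y * (f x - f y) ^ 2 := by
  have e1 : ∑ x, ∑ y, T x y * (f x - f y) ^ 2 = ∑ x, (f x - (T *ᵥ f) x) ^ 2 +
      (∑ x, (f x) ^ 2 - ∑ x, ((T *ᵥ f) x) ^ 2) := by
    have e2 : ∑ x, ∑ y, T x y * (f x - f y) ^ 2 =
        ∑ x, ((f x) ^ 2 * ∑ y, T x y) - 2 * ∑ x, f x * (T *ᵥ f) x + ∑ x, ∑ y, T x y * (f y) ^ 2 := by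
      rw [mul_sum, ← sum_sub_distrib, ← sum_add_distrib]
      refine sum_congr rfl fun x _ => ?_
      have e3 : (T *ᵥ f) x = ∑ y, T x y * f y := rfl
      rw [e3, mul_sum, mul_sum, mul_sum, ← sum_sub_distrib, ← sum_add_distrib]
      exact sum_congr rfl fun y _ => by ring
    have e4 : ∑ x, ∑ y, T x y * (f y) ^ 2 = ∑ y, (f y) ^ 2 := by
      rw [sum_comm]
      refine sum_congr rfl fun y _ => ?_
      rw [← sum_mul, h2, one_mul]
    have e5 : ∑ x, ((f x) ^ 2 * ∑ y, T x y) = ∑ x, (f x) ^ 2 :=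
      sum_congr rfl fun x _ => by rw [h1, mul_one]
    have e6 : ∑ x, (f x - (T *ᵥ f) x) ^ 2 =
        ∑ x, (f x) ^ 2 - 2 * ∑ x, f x * (T *ᵥ f) x + ∑ x, ((T *ᵥ f) x) ^ 2 := by
      rw [mul_sum, ← sum_sub_distrib, ← sum_add_distrib]
      exact sum_congr rfl fun x _ => by ring
    rw [e2, e4, e5, e6]
    ring
  have h3 := contr T f h0 h1 h2
  have h4 : 0 ≤ ∑ x, (f x - (T *ᵥ f) x) ^ 2 := sum_nonneg fun _ _ => sq_nonneg _
  constructor <;> linarith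

theorem four_sq (a b c e : ℝ) : (a + b + c + e) ^ 2 ≤ 4 * (a ^ 2 + b ^ 2 + c ^ 2 + e ^ 2) := by
  nlinarith [sq_nonneg (a - b), sq_nonneg (a - c), sq_nonneg (a - e), sq_nonneg (b - c),
    sq_nonneg (b - e), sq_nonneg (c - e)]

/-- the main comparison -/
theorem compare (T : Matrix V V ℝ) (f F G χ : V → ℝ) (X : ℝ) (B : V → Finset V) (H Q : Finset V)
    (c c' : ℝ) (h0 : ∀ x y, 0 ≤ T x y) (h1 : ∀ x, ∑ y, T x y = 1) (h2 : ∀ y, ∑ x, T x y = 1)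
    (hχ0 : ∀ x, 0 ≤ χ x) (hχ1 : ∑ x, χ x = 1) (hχ2 : ∑ x, χ x ^ 2 ≤ X)
    (hB : ∀ x, 1 / 2 ≤ ∑ y ∈ B x, T x y) (hH : ∀ x, χ x ≠ 0 → ∀ y ∈ H, T x y = 0)
    (hG : ∀ y, y ∉ H → G y = F y) (hQ : ∀ x, χ x ≠ 0 → B x ⊆ Q) :
    (∑ x, χ x * f x - c') ^ 2 ≤ 4 * (X * ∑ x, (f x - (T *ᵥ F) x) ^ 2 +
      X * (2 * (∑ x, (F x) ^ 2 - ∑ x, ((T *ᵥ F) x) ^ 2)) + 4 * X * ∑ y ∈ Q, (G y - c) ^ 2 +
        (c - c') ^ 2) := by
  have hX0 : 0 ≤ X := le_trans (sum_nonneg fun _ _ => sq_nonneg _) hχ2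
  obtain ⟨M, hM⟩ : ∃ M : V → ℝ, ∀ x, M x = ∑ y ∈ B x, T x y := ⟨_, fun _ => rfl⟩
  obtain ⟨a, ha⟩ : ∃ a : V → ℝ, ∀ x, a x = (∑ y ∈ B x, T x y * F y) / M x := ⟨_, fun _ => rfl⟩
  obtain ⟨μ, hμ⟩ : ∃ μ : V → ℝ, ∀ y, μ y = ∑ x, χ x * ((if y ∈ B x then T x y else 0) / M x) :=
    ⟨_, fun _ => rfl⟩
  have hM2 : ∀ x, 1 / 2 ≤ M x := fun x => by rw [hM]; exact hB x
  have hM0 : ∀ x, 0 < M x := fun x => by have := hM2 x; linarith
  have hite : ∀ x y, 0 ≤ (if y ∈ B x then T x y else 0) := fun x y => by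
    split_ifs
    · exact h0 x y
    · exact le_rfl
  have hμ0 : ∀ y, 0 ≤ μ y := fun y => by
    rw [hμ]
    exact sum_nonneg fun x _ => mul_nonneg (hχ0 x) (div_nonneg (hite x y) (hM0 x).le)
  -- sums against `μ`
  have hμsum : ∀ g : V → ℝ, ∑ y, μ y * g y = ∑ x, χ x * ((∑ y ∈ B x, T x y * g y) / M x) := by
    intro g
    have e1 : ∀ y ∈ (univ : Finset V), μ y * g y =
        ∑ x, χ x * ((if y ∈ B x then T x y else 0) / M x) * g y := fun y _ => by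
      rw [hμ, sum_mul]
    rw [sum_congr rfl e1, sum_comm]
    refine sum_congr rfl fun x _ => ?_
    have e2 : (∑ y ∈ B x, T x y * g y) = ∑ y, (if y ∈ B x then T x y else 0) * g y := by
      rw [← sum_subset (subset_univ (B x))]
      · exact sum_congr rfl fun y hy => by rw [if_pos hy]
      · intro y _ hy
        rw [if_neg hy, zero_mul]
    rw [e2, sum_div, mul_sum]
    exact sum_congr rfl fun y _ => by ring
  have hμ1 : ∑ y, μ y = 1 := by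
    have e1 := hμsum (fun _ => 1)
    simp only [mul_one] at e1
    rw [e1, ← hχ1]
    refine sum_congr rfl fun x _ => ?_
    rw [← hM, div_self (hM0 x).ne', mul_one]
  have hμF : ∑ x, χ x * a x = ∑ y, μ y * F y := by
    rw [hμsum F]
    exact sum_congr rfl fun x _ => by rw [ha]
  have hμH : ∀ y ∈ H, μ y = 0 := by
    intro y hy
    rw [hμ]
    refine sum_eq_zero fun x _ => ?_
    by_cases hx : χ x = 0
    · rw [hx, zero_mul]
    · rw [hH x hx y hy]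
      simp
  have hμG : ∑ y, μ y * F y = ∑ y, μ y * G y := by
    refine sum_congr rfl fun y _ => ?_
    by_cases hy : y ∈ H
    · rw [hμH y hy, zero_mul, zero_mul]
    · rw [hG y hy]
  have hμQ : ∀ y, y ∉ Q → μ y = 0 := by
    intro y hy
    rw [hμ]
    refine sum_eq_zero fun x _ => ?_
    by_cases hx : χ x = 0
    · rw [hx, zero_mul]
    · rw [if_neg (fun h => hy (hQ x hx h))]
      simp
  -- the square norm of `μ`
  have hμle : ∀ y, μ y ≤ 2 * (Tᵀ *ᵥ χ) y := by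
    intro y
    have e1 : (Tᵀ *ᵥ χ) y = ∑ x, T x y * χ x := rfl
    rw [e1, hμ, mul_sum]
    refine sum_le_sum fun x _ => ?_
    have e2 : (if y ∈ B x then T x y else 0) / M x ≤ 2 * T x y := by
      rw [div_le_iff₀ (hM0 x)]
      have e3 : (if y ∈ B x then T x y else 0) ≤ T x y := by
        split_ifs
        · exact le_rfl
        · exact h0 x y
      nlinarith [hM2 x, h0 x y]
    calc χ x * ((if y ∈ B x then T x y else 0) / M x) ≤ χ x * (2 * T x y) :=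
          mul_le_mul_of_nonneg_left e2 (hχ0 x)
      _ = 2 * (T x y * χ x) := by ring
  have hμ2 : ∑ y, μ y ^ 2 ≤ 4 * X := by
    have e1 := contr Tᵀ χ (fun x y => h0 y x) h2 h1
    calc ∑ y, μ y ^ 2 ≤ ∑ y, (2 * (Tᵀ *ᵥ χ) y) ^ 2 :=
          sum_le_sum fun y _ => pow_le_pow_left₀ (hμ0 y) (hμle y) 2
      _ = 4 * ∑ y, ((Tᵀ *ᵥ χ) y) ^ 2 := by
          rw [mul_sum]
          exact sum_congr rfl fun y _ => by ring
      _ ≤ 4 * X := by linarith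
  -- the four parts
  have p1 : (∑ x, χ x * (f x - (T *ᵥ F) x)) ^ 2 ≤ X * ∑ x, (f x - (T *ᵥ F) x) ^ 2 :=
    (cs_sum univ _ _).trans (mul_le_mul_of_nonneg_right hχ2 (sum_nonneg fun _ _ => sq_nonneg _))
  have hjen := Pool.Agent.Q38.L2.jen V T F h0 h1 h2
  have p2 : (∑ x, χ x * ((T *ᵥ F) x - a x)) ^ 2 ≤
      X * (2 * (∑ x, (F x) ^ 2 - ∑ x, ((T *ᵥ F) x) ^ 2)) := by
    refine (cs_sum univ _ _).trans ?_
    have e1 : ∑ x, ((T *ᵥ F) x - a x) ^ 2 ≤ 2 * (∑ x, (F x) ^ 2 - ∑ x, ((T *ᵥ F) x) ^ 2) := by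
      rw [← hjen.1, mul_sum]
      refine sum_le_sum fun x _ => ?_
      have e2 := hjen.2 x (B x) (hB x)
      have e3 : ((T *ᵥ F) x - a x) ^ 2 =
          ((∑ z ∈ B x, T x z * F z) / (∑ z ∈ B x, T x z) - (T *ᵥ F) x) ^ 2 := by
        rw [ha, hM]
        ring
      rw [e3]
      exact e2
    exact mul_le_mul hχ2 e1 (sum_nonneg fun _ _ => sq_nonneg _) hX0
  have p3 : (∑ y, μ y * (G y - c)) ^ 2 ≤ 4 * X * ∑ y ∈ Q, (G y - c) ^ 2 := by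
    have e1 : ∑ y, μ y * (G y - c) = ∑ y ∈ Q, μ y * (G y - c) := by
      rw [← sum_subset (subset_univ Q)]
      intro y _ hy
      rw [hμQ y hy, zero_mul]
    rw [e1]
    refine (cs_sum Q _ _).trans (mul_le_mul_of_nonneg_right ?_ (sum_nonneg fun _ _ => sq_nonneg _))
    exact (sum_le_sum_of_subset_of_nonneg (subset_univ Q) fun _ _ _ => sq_nonneg _).trans hμ2
  have e0 : ∑ x, χ x * f x - c' = ∑ x, χ x * (f x - (T *ᵥ F) x) + ∑ x, χ x * ((T *ᵥ F) x - a x) +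
      ∑ y, μ y * (G y - c) + (c - c') := by
    have g1 : ∑ y, μ y * (G y - c) = ∑ x, χ x * a x - c := by
      rw [hμF, hμG]
      have : ∑ y, μ y * (G y - c) = ∑ y, μ y * G y - (∑ y, μ y) * c := by
        rw [sum_mul, ← sum_sub_distrib]
        exact sum_congr rfl fun y _ => by ring
      rw [this, hμ1, one_mul]
    have g2 : ∑ x, χ x * (f x - (T *ᵥ F) x) = ∑ x, χ x * f x - ∑ x, χ x * (T *ᵥ F) x := by
      rw [← sum_sub_distrib]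
      exact sum_congr rfl fun x _ => by ring
    have g3 : ∑ x, χ x * ((T *ᵥ F) x - a x) = ∑ x, χ x * (T *ᵥ F) x - ∑ x, χ x * a x := by
      rw [← sum_sub_distrib]
      exact sum_congr rfl fun x _ => by ring
    rw [g1, g2, g3]
    ring
  rw [e0]
  refine (four_sq _ _ _ _).trans ?_
  linarith

/-- the variance in a set -/
theorem var_set (Q : Finset V) (G : V → ℝ) (hQ : Q.Nonempty) :
    ∑ y ∈ Q, (G y - (∑ x ∈ Q, G x) / Q.card) ^ 2 =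
      (∑ x ∈ Q, ∑ y ∈ Q, (G x - G y) ^ 2) / (2 * Q.card) := by
  have hc : (0 : ℝ) < Q.card := by exact_mod_cast hQ.card_pos
  obtain ⟨s, hs⟩ : ∃ s : ℝ, s = ∑ x ∈ Q, G x := ⟨_, rfl⟩
  have e1 : ∑ x ∈ Q, ∑ y ∈ Q, (G x - G y) ^ 2 = 2 * Q.card * ∑ x ∈ Q, (G x) ^ 2 - 2 * s ^ 2 := by
    have e2 : ∀ x ∈ Q, ∑ y ∈ Q, (G x - G y) ^ 2 =
        Q.card * (G x) ^ 2 - 2 * G x * s + ∑ y ∈ Q, (G y) ^ 2 := by
      intro x _
      rw [hs, mul_sum, ← nsmul_eq_mul, ← sum_const, ← sum_sub_distrib, ← sum_add_distrib]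
      exact sum_congr rfl fun y _ => by ring
    rw [sum_congr rfl e2, sum_add_distrib, sum_sub_distrib, sum_const, nsmul_eq_mul, ← mul_sum,
      ← sum_mul, ← mul_sum, ← hs]
    ring
  have e3 : ∑ y ∈ Q, (G y - s / Q.card) ^ 2 = ∑ x ∈ Q, (G x) ^ 2 - s ^ 2 / Q.card := by
    have e4 : ∀ y ∈ Q, (G y - s / Q.card) ^ 2 =
        (G y) ^ 2 - 2 * (s / Q.card) * G y + (s / Q.card) ^ 2 := fun y _ => by ring
    rw [sum_congr rfl e4, sum_add_distrib, sum_sub_distrib, ← mul_sum, ← hs, sum_const,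
      nsmul_eq_mul]
    field_simp
    ring
  rw [← hs, e3, e1]
  field_simp

end gen

end Pool.Agent.Q14.PL
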