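import Pool.Agent.Q295.PL.Stm2
import Pool.Agent.Q151.LC.Smo
import Pool.Agent.Q53.LC.Kil
import Pool.Agent.Q277.LC.Sub

/-!
# Project LC2, job RNG: range of the walk over several windows
-/

set_option autoImplicit false

namespace Pool.Agent.Q14.PL

open Finset Matrix Q292.LC Q295.PL

theorem rng : S_RNG := by
  classical
  intro d hd
  obtain ⟨CK, hCK1, hK⟩ := Pool.Agent.Q53.LC.kil d hd
  refine ⟨⌈CK⌉₊ + 1, by omega, ?_⟩
  intro L _ hL σ hσ ω A δ q K lam r ρ κ₀ u J R Z h0 hC hq1 hq2 hEv hJu hR hr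
  obtain ⟨ε, hε⟩ : ∃ ε : ℝ, ε = Real.exp (-(Z : ℝ)) := ⟨_, rfl⟩
  have hε0 : 0 ≤ ε := by rw [hε]; exact (Real.exp_pos _).le
  have hε1 : ε ≤ 1 := by
    rw [hε]
    exact Real.exp_le_one_iff.2 (by simp)
  have hCKr : CK ≤ ⌈CK⌉₊ := Nat.le_ceil _
  have hCKδ : CK * δ ≤ 1 := by
    push_cast at hC
    nlinarith
  have hδ1 : δ ≤ 1 := by nlinarith
  -- one window
  have hone : ∀ (ω' : ℕ → Bool) (A' : Finset (Fin d → ZMod L)), Ev σ q u lam r ρ κ₀ ω' A' →
      ∀ z, 1 - ε ≤ ∑ y ∈ bal z R, TT (ed ∘ σ) ω' A' δ (u * (q * ms d L)) z y := by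
    intro ω' A' hE z
    obtain ⟨h1, h2⟩ := hK L hL σ hσ ω' A' δ q u R z h0 hCKδ hq2
    have hJall : ∀ a ∈ A', jumps (ed ∘ σ) ω' 0 (u * (q * ms d L)) a ≤ ρ * u := fun a ha =>
      Pool.Agent.Q151.LC.jumps_units (ed ∘ σ) ω' a (q * ms d L) ρ u
        (fun j hj => hE.2.1 j hj a ha)
    have hρu : ρ * u + 2 ≤ R := by
      have e1 : ρ * u ≤ (⌈CK⌉₊ + 1) * (lam + 1) * (ρ + 1) * u := by
        refine Nat.mul_le_mul_right u ?_
        calc ρ ≤ ρ + 1 := by omega
          _ = 1 * (ρ + 1) := (one_mul _).symm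
          _ ≤ (⌈CK⌉₊ + 1) * (lam + 1) * (ρ + 1) :=
            Nat.mul_le_mul_right _ (Nat.mul_pos (by omega) (by omega))
      omega
    have hlam : (A' ∩ bal z (R + ρ * u + 4)).card ≤ lam := by
      have h3 := hE.1 0 (Nat.zero_le _) z
      rw [Nat.zero_mul] at h3
      have h4 : A'.image (gp (ed ∘ σ) ω' 0) = A' := by
        ext x
        simp [gp]
      rw [h4] at h3
      refine (card_le_card ?_).trans h3
      refine inter_subset_inter_left ?_
      intro x hx
      rw [Pool.Agent.Q151.LC.mem_bal] at hx ⊢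
      omega
    have hcnt := Pool.Agent.Q151.LC.cnt_jump σ ω' A' z (u * (q * ms d L)) R (ρ * u) lam hJall hlam
    have hcnt' : ((Finset.range (u * (q * ms d L))).filter fun k => ω' k = true ∧
        tch (ed ∘ σ) ω' A' k ∧ ((ed (σ k)).1 ∈ bal z R ∨ (ed (σ k)).2 ∈ bal z R)).card ≤
        lam * (ρ * u) := by
      refine (card_le_card ?_).trans hcnt
      intro k hk
      rw [mem_filter] at hk ⊢
      refine ⟨hk.1, hk.2.1, hk.2.2.1, ?_⟩
      rcases hk.2.2.2 with h | h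
      · left
        rw [Pool.Agent.Q151.LC.mem_bal] at h ⊢
        omega
      · right
        rw [Pool.Agent.Q151.LC.mem_bal] at h ⊢
        omega
    have h5 : ∑ y, kv (ed ∘ σ) ω' A' δ (bal z R) (Pi.single z 1) (u * (q * ms d L)) y ≤
        ∑ y ∈ bal z R, TT (ed ∘ σ) ω' A' δ (u * (q * ms d L)) z y := by
      rw [← sum_subset (subset_univ (bal z R))]
      · exact sum_le_sum fun y _ => (h1 y).2.1
      · intro y _ hy
        by_contra hne
        exact hy (Pool.Agent.Q151.LC.mem_bal.2 ((h1 y).2.2 hne))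
    have h6 : Real.exp (CK * (u + ((Finset.range (u * (q * ms d L))).filter fun k => ω' k = true ∧
        tch (ed ∘ σ) ω' A' k ∧ ((ed (σ k)).1 ∈ bal z R ∨ (ed (σ k)).2 ∈ bal z R)).card) - R) ≤ ε := by
      rw [hε]
      refine Real.exp_le_exp.2 ?_
      have e1 : ((((Finset.range (u * (q * ms d L))).filter fun k => ω' k = true ∧
        tch (ed ∘ σ) ω' A' k ∧ ((ed (σ k)).1 ∈ bal z R ∨ (ed (σ k)).2 ∈ bal z R)).card : ℕ) : ℝ) ≤
        lam * (ρ * u) := by exact_mod_cast hcnt'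
      have e2 : ((⌈CK⌉₊ : ℝ) + 1) * (lam + 1) * (ρ + 1) * u + Z + 2 ≤ R := by exact_mod_cast hR
      have hu0 : (0 : ℝ) ≤ u := Nat.cast_nonneg u
      have hl0 : (0 : ℝ) ≤ lam := Nat.cast_nonneg lam
      have hρ0 : (0 : ℝ) ≤ ρ := Nat.cast_nonneg ρ
      have e3 : (u : ℝ) + lam * (ρ * u) ≤ (lam + 1) * (ρ + 1) * u := by
        have : 0 ≤ (lam : ℝ) * u + ρ * u := by positivity
        nlinarith
      have e4 : CK * ((u : ℝ) + lam * (ρ * u)) ≤ (⌈CK⌉₊ + 1) * ((lam + 1) * (ρ + 1) * u) :=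
        mul_le_mul (by linarith) e3 (by positivity) (by positivity)
      have e5 := mul_le_mul_of_nonneg_left (add_le_add_right e1 (u : ℝ)) (by linarith : 0 ≤ CK)
      linarith
    linarith
  -- induction
  have hbas := Pool.Agent.Q68.LC.bas2 (Fin d → ZMod L) (ed ∘ σ)
  have hind : ∀ j : ℕ, j * u ≤ K → ∀ x, 1 - j * ε ≤
      ∑ z ∈ bal x (j * R), TT (ed ∘ σ) ω A δ (j * u * (q * ms d L)) x z := by
    intro j
    induction j with
    | zero =>
      intro _ x
      have h1 : x ∈ bal x (0 * R) := Pool.Agent.Q151.LC.mem_bal.2 (by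
        rw [Pool.Agent.Q151.LC.td_self]; exact Nat.zero_le _)
      have h2 : (0 : ℕ) * u * (q * ms d L) = 0 := by ring
      rw [h2]
      have h3 : TT (ed ∘ σ) ω A δ 0 = 1 := rfl
      rw [h3]
      refine le_trans ?_ (single_le_sum (f := fun z => (1 : Matrix _ _ ℝ) x z) (fun z _ => by
        rw [Matrix.one_apply]
        split_ifs
        · exact zero_le_one
        · exact le_rfl) h1)
      rw [Matrix.one_apply_eq]
      simp
    | succ j ih =>
      intro hj x
      have hj' : j * u + u ≤ K := by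
        have : (j + 1) * u = j * u + u := by ring
        omega
      have ih' := ih (by omega) x
      obtain ⟨hs1, hs2⟩ := Pool.Agent.Q277.LC.sub d L hL σ hσ q K lam r ρ κ₀ ω A hEv (j * u) u hj'
      have hwin := hone _ _ hs2
      obtain ⟨hb1, hb2, -, -, -, hb6⟩ := hbas ω A δ h0.le hδ1
      have e1 : (j + 1) * u * (q * ms d L) = j * u * (q * ms d L) + u * (q * ms d L) := by ring
      rw [e1, hb6, hs1]
      obtain ⟨T, hT⟩ : ∃ T, T = TT (ed ∘ σ) ω A δ (j * u * (q * ms d L)) := ⟨_, rfl⟩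
      obtain ⟨Wm, hW⟩ : ∃ Wm, Wm = TT (ed ∘ σ) (sh (j * u * (q * ms d L)) ω)
        (A.image (gp (ed ∘ σ) ω (j * u * (q * ms d L)))) δ (u * (q * ms d L)) := ⟨_, rfl⟩
      have hT0 : ∀ a b, 0 ≤ T a b := fun a b => by rw [hT]; exact hb1 _ a b
      have hW0 : ∀ a b, 0 ≤ Wm a b := fun a b => by
        rw [hW]
        exact (hbas _ _ δ h0.le hδ1).1 _ a b
      rw [← hT] at ih' ⊢
      rw [← hW] at hwin ⊢
      have h1 : ∑ y ∈ bal x (j * R), T x y * ∑ z ∈ bal y R, Wm y z ≤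
          ∑ z ∈ bal x ((j + 1) * R), (T * Wm) x z := by
        have h2 : ∑ z ∈ bal x ((j + 1) * R), (T * Wm) x z =
            ∑ y, T x y * ∑ z ∈ bal x ((j + 1) * R), Wm y z := by
          simp only [Matrix.mul_apply]
          rw [sum_comm]
          exact sum_congr rfl fun y _ => (mul_sum _ _ _).symm
        rw [h2]
        refine (sum_le_sum (g := fun y => T x y * ∑ z ∈ bal x ((j + 1) * R), Wm y z)
          fun y hy => ?_).trans (sum_le_sum_of_subset_of_nonneg (subset_univ _) fun y _ _ =>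
            mul_nonneg (hT0 _ _) (sum_nonneg fun z _ => hW0 _ _))
        refine mul_le_mul_of_nonneg_left ?_ (hT0 _ _)
        refine sum_le_sum_of_subset_of_nonneg ?_ fun z _ _ => hW0 _ _
        intro z hz
        rw [Pool.Agent.Q151.LC.mem_bal] at hy hz ⊢
        have := Pool.Agent.Q151.LC.td_tri x y z
        have e2 : (j + 1) * R = j * R + R := by ring
        omega
      have h3 : (∑ y ∈ bal x (j * R), T x y) * (1 - ε) ≤
          ∑ y ∈ bal x (j * R), T x y * ∑ z ∈ bal y R, Wm y z := by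
        rw [sum_mul]
        exact sum_le_sum fun y _ => mul_le_mul_of_nonneg_left (hwin y) (hT0 _ _)
      have h4 : (1 - j * ε) * (1 - ε) ≤ (∑ y ∈ bal x (j * R), T x y) * (1 - ε) :=
        mul_le_mul_of_nonneg_right ih' (by linarith)
      have h5 : (1 : ℝ) - ((j + 1 : ℕ) : ℝ) * ε ≤ (1 - j * ε) * (1 - ε) := by
        push_cast
        have : 0 ≤ (j : ℝ) * ε ^ 2 := by positivity
        nlinarith
      linarith
  rw [← hε]
  exact hind J hJu

end Pool.Agent.Q14.PL
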