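import Pool.Agent.Q14.PL.Lm1
import Pool.Agent.Q14.PL.Chn
import Pool.Agent.Q14.PL.Rng
import Pool.Agent.Q299.PL.BWB
import Pool.Agent.Q38.L2.Ext

/-!
# Project LC2, job LMT: boxes, balls and windows
-/

set_option autoImplicit false

namespace Pool.Agent.Q14.PL

open Finset Matrix Q292.LC Q295.PL

section torus

variable {d L : ℕ} [NeZero L]

theorem card_box (r : ℕ) (hr : r ≤ L) (z : Fin d → ZMod L) :
    ((Q292.LC.box z r).card : ℝ) = (r : ℝ) ^ d := by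
  have h := box_sum (fun _ => (1 : ℝ)) r hr z
  rw [sum_const, sum_const, nsmul_eq_mul, nsmul_eq_mul, mul_one, mul_one] at h
  rw [h, card_univ, Fintype.card_fun, Fintype.card_fin, Fintype.card_fin]
  push_cast
  rfl

theorem box_sub_bal (r : ℕ) (z : Fin d → ZMod L) : Q292.LC.box z r ⊆ bal z (d * r) := by
  intro x hx
  unfold Q292.LC.box at hx
  rw [mem_filter] at hx
  rw [Pool.Agent.Q151.LC.mem_bal, Pool.Agent.Q151.LC.td_comm]
  unfold td
  have h1 : ∀ i ∈ (univ : Finset (Fin d)), (x i - z i).valMinAbs.natAbs ≤ r := by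
    intro i _
    have h2 := hx.2 i
    have h3 : (x i - z i).valMinAbs.natAbs ≤ (x i - z i).val := by
      rw [ZMod.valMinAbs_natAbs_eq_min]
      exact min_le_left _ _
    omega
  have h4 := sum_le_card_nsmul (univ : Finset (Fin d)) _ r h1
  rwa [card_univ, Fintype.card_fin, smul_eq_mul] at h4

theorem bal_sub_box (r : ℕ) (hr : 2 * r + 1 ≤ L) (z : Fin d → ZMod L) :
    bal z r ⊆ Q292.LC.box (fun i => z i - (r : ZMod L)) (2 * r + 1) := by
  intro x hx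
  rw [Pool.Agent.Q151.LC.mem_bal, Pool.Agent.Q151.LC.td_comm] at hx
  unfold Q292.LC.box
  rw [mem_filter]
  refine ⟨mem_univ _, fun i => ?_⟩
  have h1 : (x i - z i).valMinAbs.natAbs ≤ r := by
    refine le_trans ?_ hx
    unfold td
    exact single_le_sum (f := fun i => (x i - z i).valMinAbs.natAbs) (fun _ _ => Nat.zero_le _)
      (mem_univ i)
  obtain ⟨k, hk⟩ : ∃ k : ℤ, k = (x i - z i).valMinAbs := ⟨_, rfl⟩
  have h2 : x i - z i = (k : ZMod L) := by rw [hk, ZMod.coe_valMinAbs]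
  have h3 : x i - (z i - (r : ZMod L)) = ((k + r : ℤ) : ZMod L) := by
    push_cast
    rw [← h2]
    ring
  show (x i - (z i - (r : ZMod L))).val < 2 * r + 1
  rw [h3]
  have h4 : ((((k + r : ℤ) : ZMod L).val : ℕ) : ℤ) = (k + r) % L := ZMod.val_intCast _
  rw [← hk] at h1
  have h5 : (k + r) % (L : ℤ) = k + r := Int.emod_eq_of_lt (by omega) (by omega)
  rw [h5] at h4
  omega

/-! ### the distribution `chi` -/

theorem chi_nonneg (r : ℕ) (A : Finset (Fin d → ZMod L)) (z x : Fin d → ZMod L) :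
    0 ≤ chi r A z x := by
  unfold chi
  split_ifs <;> positivity

theorem chi_ne (r : ℕ) (A : Finset (Fin d → ZMod L)) (z x : Fin d → ZMod L)
    (h : chi r A z x ≠ 0) : x ∈ Q292.LC.box z r ∧ x ∉ A := by
  unfold chi at h
  split_ifs at h with h1
  · rw [mem_sdiff] at h1
    exact h1
  · exact absurd rfl h

theorem card_sdiff_ge (r : ℕ) (hr : r ≤ L) (A : Finset (Fin d → ZMod L)) (z : Fin d → ZMod L)
    (hA : ((A ∩ Q292.LC.box z r).card : ℝ) ≤ (r : ℝ) ^ d / 2) :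
    (r : ℝ) ^ d / 2 ≤ ((Q292.LC.box z r \ A).card : ℝ) := by
  have h1 : (Q292.LC.box z r).card = (Q292.LC.box z r \ A).card + (Q292.LC.box z r ∩ A).card :=
    (card_sdiff_add_card_inter _ _).symm
  have h2 := card_box r hr z
  rw [h1, inter_comm] at h2
  push_cast at h2
  linarith

theorem chi_sum (r : ℕ) (hr1 : 1 ≤ r) (hr : r ≤ L) (A : Finset (Fin d → ZMod L))
    (z : Fin d → ZMod L) (hA : ((A ∩ Q292.LC.box z r).card : ℝ) ≤ (r : ℝ) ^ d / 2) :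
    ∑ x, chi r A z x = 1 ∧ ∑ x, chi r A z x ^ 2 ≤ 2 / (r : ℝ) ^ d := by
  have hr0 : (0 : ℝ) < r := by exact_mod_cast hr1
  have h1 := card_sdiff_ge r hr A z hA
  have h2 : (0 : ℝ) < (r : ℝ) ^ d / 2 := by positivity
  have h3 : 0 < ((Q292.LC.box z r \ A).card : ℝ) := by linarith
  constructor
  · unfold chi
    rw [sum_ite_mem, univ_inter, sum_const, nsmul_eq_mul]
    field_simp
  · have e1 : ∀ x ∈ (univ : Finset (Fin d → ZMod L)), chi r A z x ^ 2 =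
        if x ∈ Q292.LC.box z r \ A then (1 / ((Q292.LC.box z r \ A).card : ℝ)) ^ 2 else 0 := by
      intro x _
      unfold chi
      split_ifs
      · rfl
      · norm_num
    rw [sum_congr rfl e1, sum_ite_mem, univ_inter, sum_const, nsmul_eq_mul]
    have e2 : ((Q292.LC.box z r \ A).card : ℝ) * (1 / ((Q292.LC.box z r \ A).card : ℝ)) ^ 2 =
        1 / ((Q292.LC.box z r \ A).card : ℝ) := by field_simp
    rw [e2, div_le_div_iff₀ h3 (by positivity)]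
    linarith

theorem phz_sq (r : ℕ) (A : Finset (Fin d → ZMod L)) (f : (Fin d → ZMod L) → ℝ) (c B : ℝ)
    (h : ∀ z : Fin d → ZMod L, (∑ x, chi r A z x * f x - c) ^ 2 ≤ B) (z : Fin d → ZMod L) :
    (phz r A z ⬝ᵥ f) ^ 2 ≤ 4 * B := by
  have hL : (0 : ℝ) < L := by exact_mod_cast Nat.pos_of_ne_zero (NeZero.ne L)
  have hc : (Fintype.card (Fin d → ZMod L) : ℝ) = (L : ℝ) ^ d := by
    rw [Fintype.card_fun, ZMod.card, Fintype.card_fin]
    push_cast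
    rfl
  have h1 := sq_mean_le (fun z' => ∑ x, chi r A z' x * f x - c) B h
  rw [sum_sub_distrib, sum_const, card_univ, nsmul_eq_mul, hc, sub_div,
    mul_div_assoc, mul_div_cancel₀ _ (by positivity)] at h1
  have h2 := h z
  have e1 : phz r A z ⬝ᵥ f = (∑ x, chi r A z x * f x - c) -
      ((∑ z', ∑ x, chi r A z' x * f x) / (L : ℝ) ^ d - c) := by
    unfold phz
    rw [dotProduct]
    have e2 : ∀ x ∈ (univ : Finset (Fin d → ZMod L)),
        (chi r A z x - (∑ z' : Fin d → ZMod L, chi r A z' x) / (L : ℝ) ^ d) * f x =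
        chi r A z x * f x - (∑ z', chi r A z' x * f x) / (L : ℝ) ^ d := by
      intro x _
      rw [sub_mul, div_mul_eq_mul_div, sum_mul]
    rw [sum_congr rfl e2, sum_sub_distrib, ← sum_div, sum_comm]
    ring
  rw [e1]
  nlinarith [sq_nonneg ((∑ x, chi r A z x * f x - c) +
      ((∑ z', ∑ x, chi r A z' x * f x) / (L : ℝ) ^ d - c))]

theorem phz_A (r : ℕ) (A : Finset (Fin d → ZMod L)) (z : Fin d → ZMod L) :
    ∀ a ∈ A, phz r A z a = 0 := by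
  intro a ha
  have h1 : ∀ z', chi r A z' a = 0 := fun z' => by
    by_contra h
    exact (chi_ne r A z' a h).2 ha
  unfold phz
  rw [h1, sum_eq_zero fun z' _ => h1 z']
  simp

/-! ### windows -/

theorem stage (hW : ∃ C : ℕ, 1 ≤ C ∧ ∀ (L : ℕ) [NeZero L], 3 ≤ L →
    ∀ σ : ℕ → (Fin d → ZMod L) × Fin d, Per σ → ∀ (ω : ℕ → Bool) (A : Finset (Fin d → ZMod L))
    (δ : ℝ) (q u lam r ρ κ₀ R : ℕ) (y : (Fin d → ZMod L) → (Fin d → ZMod L))
    (f : (Fin d → ZMod L) → ℝ), 0 < δ → C * δ ≤ 1 → 1 ≤ δ * q → δ * q ≤ 2 → 1 ≤ u →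
    Ev σ q u lam r ρ κ₀ ω A → 4 * lam ^ 2 * κ₀ ≤ u → 4 * lam * ρ ≤ q →
    C * (lam + 1) * (ρ + 1) * u ≤ R → 4 * R ≤ r → Ex A lam y →
    gE (fun x => (TT (ed ∘ σ) ω A δ (u * (q * ms d L)) *ᵥ f) (y x)) ≤
      C * (R : ℝ) ^ (d + 1) * (∑ x, (f x) ^ 2 -
        ∑ x, ((TT (ed ∘ σ) ω A δ (u * (q * ms d L)) *ᵥ f) x) ^ 2)) (hd : 2 ≤ d) :
    ∃ C : ℕ, 1 ≤ C ∧ ∀ (L : ℕ) [NeZero L], 3 ≤ L →
    ∀ σ : ℕ → (Fin d → ZMod L) × Fin d, Per σ → ∀ (ω : ℕ → Bool) (A : Finset (Fin d → ZMod L))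
    (δ : ℝ) (q u K J lam r ρ κ₀ R : ℕ) (f : (Fin d → ZMod L) → ℝ), 0 < δ → C * δ ≤ 1 →
    1 ≤ δ * q → δ * q ≤ 2 → 1 ≤ u → 1 ≤ J → J * u ≤ K →
    Ev σ q K lam r ρ κ₀ ω A → 4 * lam ^ 2 * κ₀ ≤ u → 4 * lam * ρ ≤ q →
    C * (lam + 1) * (ρ + 1) * u ≤ R → 4 * R ≤ r → lam ≤ r → lam < L →
    ∃ j < J, ∃ F G : (Fin d → ZMod L) → ℝ,
      TT (ed ∘ σ) ω A δ (K * (q * ms d L)) *ᵥ f =
        TT (ed ∘ σ) ω A δ (j * u * (q * ms d L)) *ᵥ F ∧
      ∑ x, (F x) ^ 2 ≤ ∑ x, (f x) ^ 2 ∧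
      (∀ y, y ∉ A.image (gp (ed ∘ σ) ω (j * u * (q * ms d L))) → G y = F y) ∧
      gE G ≤ C * (R : ℝ) ^ (d + 1) * ((∑ x, ∑ y, TT (ed ∘ σ) ω A δ (K * (q * ms d L)) x y *
        (f x - f y) ^ 2) / J) := by
  classical
  obtain ⟨C, hC1, hW⟩ := hW
  refine ⟨C, hC1, ?_⟩
  intro L _ hL σ hσ ω A δ q u K J lam r ρ κ₀ R f h0 hC hq1 hq2 hu hJ hJK hEv hk1 hk2 hR hr hlr hlL
  have hC1r : (1 : ℝ) ≤ C := by exact_mod_cast hC1
  have hδ1 : δ ≤ 1 := by nlinarith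
  obtain ⟨N, hN⟩ : ∃ N, N = q * ms d L := ⟨_, rfl⟩
  obtain ⟨n, hn⟩ : ∃ n, n = K * N := ⟨_, rfl⟩
  obtain ⟨T, hT⟩ : ∃ T, T = TT (ed ∘ σ) ω A δ n := ⟨_, rfl⟩
  have hbas := Pool.Agent.Q68.LC.bas2 (Fin d → ZMod L) (ed ∘ σ)
  obtain ⟨hb1, hb2, hb3, -, -, -⟩ := hbas ω A δ h0.le hδ1
  obtain ⟨F, hF⟩ : ∃ F : ℕ → (Fin d → ZMod L) → ℝ, ∀ j, F j =
      bw (ed ∘ σ) ω A δ n f (n - j * u * N) := ⟨_, fun _ => rfl⟩
  have hjn : ∀ j, j * u ≤ K → j * u * N ≤ n := fun j hj => by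
    rw [hn]
    exact Nat.mul_le_mul_right N hj
  have w1 : ∀ j, j * u ≤ K → T *ᵥ f = TT (ed ∘ σ) ω A δ (j * u * N) *ᵥ F j := by
    intro j hj
    have h1 := (Q299.PL.bwb _ (ed ∘ σ) ω A δ f).1 n (n - j * u * N) (Nat.sub_le _ _)
    have h2 : n - (n - j * u * N) = j * u * N := Nat.sub_sub_self (hjn j hj)
    rw [h2] at h1
    rw [hT, hF]
    exact h1
  -- the evolution from the time of window `j` on
  have w3 : ∀ j, j * u ≤ K → F j = TT (sh (j * u * N) (ed ∘ σ)) (sh (j * u * N) ω)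
      (A.image (gp (ed ∘ σ) ω (j * u * N))) δ (n - j * u * N) *ᵥ f := by
    intro j hj
    have h1 := (Q299.PL.bwb _ (ed ∘ σ) ω A δ f).2.1 (j * u * N) (n - j * u * N)
      (n - j * u * N) le_rfl
    rw [Nat.add_sub_cancel' (hjn j hj)] at h1
    have h2 := (Q299.PL.bwb _ (sh (j * u * N) (ed ∘ σ)) (sh (j * u * N) ω)
      (A.image (gp (ed ∘ σ) ω (j * u * N))) δ f).1 (n - j * u * N) (n - j * u * N) le_rfl
    rw [Nat.sub_self] at h2
    have h3 : TT (sh (j * u * N) (ed ∘ σ)) (sh (j * u * N) ω)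
      (A.image (gp (ed ∘ σ) ω (j * u * N))) δ 0 = 1 := rfl
    rw [h3, Matrix.one_mulVec] at h2
    rw [hF, h1, h2]
  have w2 : ∀ j, (j + 1) * u ≤ K → F j = TT (sh (j * u * N) (ed ∘ σ)) (sh (j * u * N) ω)
      (A.image (gp (ed ∘ σ) ω (j * u * N))) δ (u * N) *ᵥ F (j + 1) := by
    intro j hj
    have e0 : (j + 1) * u = j * u + u := by ring
    have e1 : (j + 1) * u * N = j * u * N + u * N := by ring
    have hj' : j * u ≤ K := by omega
    have hle := hjn (j + 1) hj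
    rw [e1] at hle
    rw [w3 j hj']
    have h2 := (Q299.PL.bwb _ (sh (j * u * N) (ed ∘ σ)) (sh (j * u * N) ω)
      (A.image (gp (ed ∘ σ) ω (j * u * N))) δ f).1 (n - j * u * N) (n - j * u * N - u * N)
      (Nat.sub_le _ _)
    have h3 : n - j * u * N - (n - j * u * N - u * N) = u * N :=
      Nat.sub_sub_self (by omega)
    rw [h3] at h2
    rw [h2]
    have h4 := (Q299.PL.bwb _ (ed ∘ σ) ω A δ f).2.1 (j * u * N) (n - j * u * N)
      (n - j * u * N - u * N) (Nat.sub_le _ _)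
    rw [Nat.add_sub_cancel' (hjn j hj')] at h4
    rw [← h4, hF]
    congr 2
    rw [e1]
    omega
  have hsq : ∀ j, j * u ≤ K → ∑ x, (F j x) ^ 2 ≤ ∑ x, (f x) ^ 2 := by
    intro j hj
    rw [w3 j hj]
    obtain ⟨g1, g2, g3, -, -, -⟩ := Pool.Agent.Q68.LC.bas2 (Fin d → ZMod L)
      (sh (j * u * N) (ed ∘ σ)) (sh (j * u * N) ω) (A.image (gp (ed ∘ σ) ω (j * u * N))) δ
      h0.le hδ1
    exact contr _ f (g1 _) (g2 _) (g3 _)
  -- the choice of the window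
  obtain ⟨EE', hEE⟩ : ∃ EE' : ℝ, EE' = ∑ x, ∑ y, T x y * (f x - f y) ^ 2 := ⟨_, rfl⟩
  have henergy := energy T f (by rw [hT]; exact hb1 n) (by rw [hT]; exact hb2 n)
    (by rw [hT]; exact hb3 n)
  have hJ0 : (0 : ℝ) < J := by exact_mod_cast hJ
  have htel : ∑ j ∈ range J, (∑ x, (F (j + 1) x) ^ 2 - ∑ x, (F j x) ^ 2) ≤
      ∑ _j ∈ range J, EE' / J := by
    rw [sum_range_sub (fun j => ∑ x, (F j x) ^ 2), sum_const, card_range, nsmul_eq_mul,
      mul_div_cancel₀ _ hJ0.ne', hEE]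
    have h1 := w1 0 (by rw [Nat.zero_mul]; exact Nat.zero_le _)
    have h2 : TT (ed ∘ σ) ω A δ (0 * u * N) = 1 := by
      rw [Nat.zero_mul, Nat.zero_mul]
      rfl
    rw [h2, Matrix.one_mulVec] at h1
    rw [← h1]
    have h3 := hsq J hJK
    linarith [henergy.2]
  obtain ⟨j, hj, hDj⟩ := exists_le_of_sum_le (nonempty_range_iff.2 (by omega)) htel
  rw [mem_range] at hj
  have hj1 : (j + 1) * u ≤ K := (Nat.mul_le_mul_right u (by omega)).trans hJK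
  have hj0 : j * u ≤ K := (Nat.mul_le_mul_right u (by omega)).trans hj1
  have hju : j * u + u ≤ K := by
    have : (j + 1) * u = j * u + u := by ring
    omega
  obtain ⟨hs1, hs2⟩ := Pool.Agent.Q277.LC.sub d L hL σ hσ q K lam r ρ κ₀ ω A hEv (j * u) u hju
  rw [← hN] at hs1 hs2
  -- the extension
  have hext : ∀ v, ((A.image (gp (ed ∘ σ) ω (j * u * N))) ∩ bal v lam).card ≤ lam := by
    intro v
    have h1 := hEv.1 (j * u) hj0 v
    rw [← hN] at h1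
    refine (card_le_card (inter_subset_inter_left ?_)).trans h1
    intro x hx
    rw [Pool.Agent.Q151.LC.mem_bal] at hx ⊢
    omega
  obtain ⟨y, hy⟩ := Pool.Agent.Q38.L2.ext d L (by omega)
    (A.image (gp (ed ∘ σ) ω (j * u * N))) lam hlL hext
  have hwin := hW L hL σ hσ (sh (j * u * N) ω) (A.image (gp (ed ∘ σ) ω (j * u * N))) δ q u lam r
    ρ κ₀ R y (F (j + 1)) h0 hC hq1 hq2 hu hs2 hk1 hk2 hR hr hy
  rw [← hN] at hwin
  have hFj := w2 j hj1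
  rw [hs1] at hFj
  rw [← hFj] at hwin
  refine ⟨j, hj, F j, fun x => F j (y x), ?_, hsq j hj0, ?_, ?_⟩
  · rw [← hN, ← hn, ← hT]
    exact w1 j hj0
  · intro x hx
    rw [← hN] at hx
    show F j (y x) = F j x
    rw [(hy x).2.2 hx]
  · rw [← hN, ← hn, ← hT, ← hEE]
    refine hwin.trans (mul_le_mul_of_nonneg_left hDj (by positivity))

end torus

end Pool.Agent.Q14.PL
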