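import Pool.Agent.Q14.PL.Lm2

/-!
# Project LC2, job LMT: sizes
-/

set_option autoImplicit false

namespace Pool.Agent.Q14.PL

open Finset

theorem root8 (K : ℕ) (hK : 1 ≤ K) : ∃ t : ℝ, 1 ≤ t ∧ t ^ 8 = K ∧
    (K : ℝ) ^ (-(3 / 8) : ℝ) = 1 / t ^ 3 := by
  have hK1 : (1 : ℝ) ≤ K := by exact_mod_cast hK
  have hK0 : (0 : ℝ) < K := by linarith
  refine ⟨(K : ℝ) ^ (1 / 8 : ℝ), Real.one_le_rpow hK1 (by norm_num), ?_, ?_⟩
  · rw [← Real.rpow_natCast, ← Real.rpow_mul hK0.le]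
    norm_num
  · rw [← Real.rpow_natCast, ← Real.rpow_mul hK0.le, one_div, ← Real.rpow_neg hK0.le]
    norm_num

/-- sizes of the windows -/
theorem sizes (d CC Z K L r s J R u : ℕ) (hu : u = 4 * Z ^ 3)
    (hR : R = CC * (Z + 1) ^ 2 * u + 2 * Z + 2) (hs : s = Nat.sqrt K) (hJ : J = s / u)
    (hZ1 : 8 * CC + 2 * d + 3 ≤ Z) (hZ4 : 4 ≤ Z) (hK : Z ^ 42 ≤ K) (hKL : K ^ 4 ≤ L ^ 7)
    (hr : r ^ 16 ≤ K ^ 7) :
    r ≤ s ∧ u ≤ s ∧ R ≤ Z ^ 7 ∧ 2 * (d * r + J * R) + 1 ≤ s * Z ^ 3 ∧ s * Z ^ 3 ≤ L := by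
  have hZ0 : 0 < Z := by omega
  have hK1 : 1 ≤ K := (Nat.one_le_pow _ _ hZ0).trans hK
  have a1 : r ≤ s := by
    rw [hs, Nat.le_sqrt']
    have h1 : (r ^ 2) ^ 8 ≤ K ^ 8 := by
      calc (r ^ 2) ^ 8 = r ^ 16 := by ring
        _ ≤ K ^ 7 := hr
        _ ≤ K ^ 8 := Nat.pow_le_pow_right hK1 (by norm_num)
    exact (Nat.pow_le_pow_iff_left (by norm_num)).1 h1
  have a2 : Z ^ 21 ≤ s := by
    rw [hs, Nat.le_sqrt']
    calc (Z ^ 21) ^ 2 = Z ^ 42 := by ring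
      _ ≤ K := hK
  have a3 : u ≤ s := by
    calc u = 4 * Z ^ 3 := hu
      _ ≤ Z * Z ^ 3 := Nat.mul_le_mul_right _ hZ4
      _ = Z ^ 4 := by ring
      _ ≤ Z ^ 21 := Nat.pow_le_pow_right hZ0 (by norm_num)
      _ ≤ s := a2
  have a4 : CC * (Z + 1) ^ 2 ≤ 4 * CC * Z ^ 2 := by
    have h1 : (Z + 1) ^ 2 ≤ (2 * Z) ^ 2 := Nat.pow_le_pow_left (by omega) 2
    calc CC * (Z + 1) ^ 2 ≤ CC * (2 * Z) ^ 2 := Nat.mul_le_mul_left _ h1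
      _ = 4 * CC * Z ^ 2 := by ring
  have hZ2 : 1 ≤ Z ^ 2 := Nat.one_le_pow _ _ hZ0
  have a5 : 2 * d + 2 * (CC * (Z + 1) ^ 2) + 3 ≤ Z ^ 3 := by
    calc 2 * d + 2 * (CC * (Z + 1) ^ 2) + 3 ≤ 2 * d + 2 * (4 * CC * Z ^ 2) + 3 := by omega
      _ ≤ 2 * d * Z ^ 2 + 2 * (4 * CC * Z ^ 2) + 3 * Z ^ 2 := by
          have h1 : 2 * d * 1 ≤ 2 * d * Z ^ 2 := Nat.mul_le_mul_left _ hZ2
          omega
      _ = (8 * CC + 2 * d + 3) * Z ^ 2 := by ring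
      _ ≤ Z * Z ^ 2 := Nat.mul_le_mul_right _ hZ1
      _ = Z ^ 3 := by ring
  have a6 : 2 * Z + 2 ≤ u := by
    rw [hu]
    have h1 : Z ≤ Z ^ 3 := Nat.le_self_pow (by norm_num) Z
    omega
  have a7 : R ≤ u * (CC * (Z + 1) ^ 2 + 1) := by
    calc R = CC * (Z + 1) ^ 2 * u + (2 * Z + 2) := by rw [hR]; ring
      _ ≤ CC * (Z + 1) ^ 2 * u + u := by omega
      _ = u * (CC * (Z + 1) ^ 2 + 1) := by ring
  have a8 : R ≤ Z ^ 7 := by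
    calc R ≤ u * (CC * (Z + 1) ^ 2 + 1) := a7
      _ ≤ u * Z ^ 3 := Nat.mul_le_mul_left _ (by omega)
      _ = 4 * Z ^ 6 := by rw [hu]; ring
      _ ≤ Z * Z ^ 6 := Nat.mul_le_mul_right _ hZ4
      _ = Z ^ 7 := by ring
  have a9 : J * R ≤ s * (CC * (Z + 1) ^ 2 + 1) := by
    have h1 : J * u ≤ s := by
      rw [hJ]
      exact Nat.div_mul_le_self s u
    calc J * R ≤ J * (u * (CC * (Z + 1) ^ 2 + 1)) := Nat.mul_le_mul_left _ a7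
      _ = J * u * (CC * (Z + 1) ^ 2 + 1) := by ring
      _ ≤ s * (CC * (Z + 1) ^ 2 + 1) := Nat.mul_le_mul_right _ h1
  have hs1 : 1 ≤ s := (Nat.one_le_pow _ _ hZ0).trans a2
  refine ⟨a1, a3, a8, ?_, ?_⟩
  · calc 2 * (d * r + J * R) + 1 ≤ 2 * (d * s + s * (CC * (Z + 1) ^ 2 + 1)) + s := by
          have h1 : d * r ≤ d * s := Nat.mul_le_mul_left _ a1
          omega
      _ = s * (2 * d + 2 * (CC * (Z + 1) ^ 2) + 3) := by ring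
      _ ≤ s * Z ^ 3 := Nat.mul_le_mul_left _ a5
  · by_contra hcon
    rw [not_le] at hcon
    have h1 : s ^ 2 ≤ K := by
      rw [hs]
      exact Nat.sqrt_le' K
    have h2 : s ^ 7 * Z ^ 21 ≤ L ^ 7 := by
      calc s ^ 7 * Z ^ 21 ≤ s ^ 7 * s := Nat.mul_le_mul_left _ a2
        _ = (s ^ 2) ^ 4 := by ring
        _ ≤ K ^ 4 := Nat.pow_le_pow_left h1 4
        _ ≤ L ^ 7 := hKL
    have h3 : L ^ 7 < (s * Z ^ 3) ^ 7 := Nat.pow_lt_pow_left hcon (by norm_num)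
    have h4 : (s * Z ^ 3) ^ 7 = s ^ 7 * Z ^ 21 := by ring
    omega

/-- the density of the particles -/
theorem dens (d Z lam r₁ ρ r a c : ℕ) (hd : 1 ≤ d) (hρ : 2 * ρ ≤ r₁) (hdr : d ≤ r₁ - ρ)
    (hr : r₁ ≤ r) (hlam : lam ≤ Z) (hZ : 8 * d ^ 2 + 3 ≤ Z) (ha : a = d * r / ((r₁ - ρ) / d))
    (hc : c ≤ lam * (2 * a + 3) ^ d) : c * r₁ ^ d ≤ Z ^ (d + 1) * r ^ d := by
  obtain ⟨b, hb⟩ : ∃ b, b = (r₁ - ρ) / d := ⟨_, rfl⟩
  rw [← hb] at ha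
  have hb1 : 1 ≤ b := by
    rw [hb]
    exact Nat.div_pos hdr hd
  have h1 : r₁ - ρ < (b + 1) * d := by
    rw [hb, Nat.add_mul, one_mul]
    exact Nat.lt_div_mul_add hd
  have h2 : r₁ ≤ 4 * d * b := by
    have e1 : (b + 1) * d ≤ (2 * b) * d := Nat.mul_le_mul_right _ (by omega)
    have e2 : 4 * d * b = 2 * ((2 * b) * d) := by ring
    omega
  have h3 : a * b ≤ d * r := by
    rw [ha]
    exact Nat.div_mul_le_self _ _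
  have h4 : r₁ * (2 * a + 3) ≤ Z * r := by
    calc r₁ * (2 * a + 3) = 2 * (r₁ * a) + 3 * r₁ := by ring
      _ ≤ 2 * (4 * d * b * a) + 3 * r := by
          have e1 : r₁ * a ≤ 4 * d * b * a := Nat.mul_le_mul_right _ h2
          omega
      _ = 8 * d * (a * b) + 3 * r := by ring
      _ ≤ 8 * d * (d * r) + 3 * r := by
          have e1 : 8 * d * (a * b) ≤ 8 * d * (d * r) := Nat.mul_le_mul_left _ h3
          omega
      _ = (8 * d ^ 2 + 3) * r := by ring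
      _ ≤ Z * r := Nat.mul_le_mul_right _ hZ
  calc c * r₁ ^ d ≤ lam * (2 * a + 3) ^ d * r₁ ^ d := Nat.mul_le_mul_right _ hc
    _ = lam * (r₁ * (2 * a + 3)) ^ d := by rw [mul_pow]; ring
    _ ≤ Z * (Z * r) ^ d := Nat.mul_le_mul hlam (Nat.pow_le_pow_left h4 d)
    _ = Z ^ (d + 1) * r ^ d := by rw [mul_pow]; ring

/-- the final bound -/
theorem num (d : ℕ) (hd : 2 ≤ d) (CH CW Z t r S R J : ℝ) (hZ : 40 ≤ Z) (hZd : 16 * d + 1 ≤ Z)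
    (hCH0 : 0 ≤ CH) (hCH : 4 * CH ≤ Z) (hCW0 : 0 ≤ CW) (hCW : CW ≤ Z) (ht : 1 ≤ t) (hr1 : 1 ≤ r)
    (hr : t ^ 7 ≤ (2 * r) ^ 2) (hS : S ^ 2 ≤ t ^ 8 * Z ^ 6) (hR0 : 0 ≤ R) (hR : R ≤ Z ^ 7)
    (hJ0 : 0 < J) (hJ : 1 / J ≤ 16 * Z ^ 3 / t ^ 4) :
    64 * (6 / r ^ d + (4 * d * S ^ 2 / r ^ d + CH * (1 + Z) ^ 2) * (CW * R ^ (d + 1) / J)) ≤
      Z ^ (7 * d + 22) * (1 / t ^ 3) := by
  have ht0 : 0 < t := by linarith
  have hZ0 : 0 < Z := by linarith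
  have hr0 : 0 < r := by linarith
  have h1 : 1 / r ^ d ≤ 4 / t ^ 7 := by
    rw [div_le_div_iff₀ (by positivity) (by positivity)]
    have e1 : r ^ 2 ≤ r ^ d := pow_le_pow_right₀ hr1 hd
    nlinarith
  have h2 : 1 / t ^ 7 ≤ 1 / t ^ 3 :=
    one_div_le_one_div_of_le (by positivity) (pow_le_pow_right₀ ht (by norm_num))
  have hP0 : 0 ≤ 1 / t ^ 3 := by positivity
  have h3 : 6 / r ^ d ≤ 24 * (1 / t ^ 3) := by
    have e1 : 6 / r ^ d = 6 * (1 / r ^ d) := by ring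
    have e2 : 4 / t ^ 7 = 4 * (1 / t ^ 7) := by ring
    rw [e1]
    rw [e2] at h1
    linarith
  have h4 : 4 * d * S ^ 2 / r ^ d ≤ 16 * d * Z ^ 6 * t := by
    calc 4 * d * S ^ 2 / r ^ d = 4 * d * S ^ 2 * (1 / r ^ d) := by ring
      _ ≤ 4 * d * (t ^ 8 * Z ^ 6) * (4 / t ^ 7) := by gcongr
      _ = 16 * d * Z ^ 6 * t := by field_simp; ring
  have h5 : CH * (1 + Z) ^ 2 ≤ Z ^ 3 * t := by
    have e1 : (1 + Z) ^ 2 ≤ (2 * Z) ^ 2 := pow_le_pow_left₀ (by linarith) (by linarith) 2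
    calc CH * (1 + Z) ^ 2 ≤ CH * (2 * Z) ^ 2 := mul_le_mul_of_nonneg_left e1 hCH0
      _ = (4 * CH) * Z ^ 2 := by ring
      _ ≤ Z * Z ^ 2 := mul_le_mul_of_nonneg_right hCH (by positivity)
      _ = Z ^ 3 * 1 := by ring
      _ ≤ Z ^ 3 * t := mul_le_mul_of_nonneg_left ht (by positivity)
  have h6 : 4 * d * S ^ 2 / r ^ d + CH * (1 + Z) ^ 2 ≤ Z ^ 7 * t := by
    have e1 : Z ^ 3 ≤ Z ^ 6 := pow_le_pow_right₀ (by linarith) (by norm_num)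
    have e2 : Z ^ 3 * t ≤ Z ^ 6 * t := mul_le_mul_of_nonneg_right e1 ht0.le
    have e3 : (16 * d + 1) * (Z ^ 6 * t) ≤ Z * (Z ^ 6 * t) :=
      mul_le_mul_of_nonneg_right hZd (by positivity)
    have e4 : Z * (Z ^ 6 * t) = Z ^ 7 * t := by ring
    have e5 : (16 * d + 1) * (Z ^ 6 * t) = 16 * d * Z ^ 6 * t + Z ^ 6 * t := by ring
    linarith
  have h7 : CW * R ^ (d + 1) / J ≤ Z ^ (7 * d + 12) / t ^ 4 := by
    calc CW * R ^ (d + 1) / J = CW * R ^ (d + 1) * (1 / J) := by ring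
      _ ≤ Z * (Z ^ 7) ^ (d + 1) * (16 * Z ^ 3 / t ^ 4) := by gcongr
      _ = Z ^ (7 * d + 11) * (16 / t ^ 4) := by
          have e1 : Z * (Z ^ 7) ^ (d + 1) * (16 * Z ^ 3 / t ^ 4) =
            (Z * (Z ^ 7) ^ (d + 1) * Z ^ 3) * (16 / t ^ 4) := by ring
          have e2 : Z * (Z ^ 7) ^ (d + 1) * Z ^ 3 = Z ^ (7 * d + 11) := by
            rw [← pow_mul]
            ring
          rw [e1, e2]
      _ ≤ Z ^ (7 * d + 11) * (Z / t ^ 4) := by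
          have e1 : 16 / t ^ 4 ≤ Z / t ^ 4 := div_le_div_of_nonneg_right (by linarith) (by positivity)
          exact mul_le_mul_of_nonneg_left e1 (by positivity)
      _ = Z ^ (7 * d + 12) / t ^ 4 := by ring
  have h8 : (4 * d * S ^ 2 / r ^ d + CH * (1 + Z) ^ 2) * (CW * R ^ (d + 1) / J) ≤
      Z ^ (7 * d + 19) * (1 / t ^ 3) := by
    calc (4 * d * S ^ 2 / r ^ d + CH * (1 + Z) ^ 2) * (CW * R ^ (d + 1) / J) ≤
        (Z ^ 7 * t) * (Z ^ (7 * d + 12) / t ^ 4) :=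
          mul_le_mul h6 h7 (by positivity) (by positivity)
      _ = (Z ^ 7 * Z ^ (7 * d + 12)) * (t / t ^ 4) := by ring
      _ = Z ^ (7 * d + 19) * (1 / t ^ 3) := by
          have e1 : t / t ^ 4 = 1 / t ^ 3 := by field_simp
          rw [e1, ← pow_add]
          congr 2
          ring
  have h9 : (1 : ℝ) ≤ Z ^ (7 * d + 19) := one_le_pow₀ (by linarith)
  have h10 : 64 * (24 * (1 / t ^ 3) + Z ^ (7 * d + 19) * (1 / t ^ 3)) ≤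
      Z ^ (7 * d + 22) * (1 / t ^ 3) := by
    have e1 : Z ^ (7 * d + 22) = Z ^ 3 * Z ^ (7 * d + 19) := by ring
    have e2 : (64000 : ℝ) ≤ Z ^ 3 := by
      calc (64000 : ℝ) = 40 ^ 3 := by norm_num
        _ ≤ Z ^ 3 := pow_le_pow_left₀ (by norm_num) hZ 3
    have e3 : 64 * (24 + Z ^ (7 * d + 19)) ≤ Z ^ (7 * d + 22) := by
      rw [e1]
      nlinarith
    calc 64 * (24 * (1 / t ^ 3) + Z ^ (7 * d + 19) * (1 / t ^ 3)) =
        (64 * (24 + Z ^ (7 * d + 19))) * (1 / t ^ 3) := by ring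
      _ ≤ Z ^ (7 * d + 22) * (1 / t ^ 3) := mul_le_mul_of_nonneg_right e3 hP0
  refine le_trans ?_ h10
  linarith

end Pool.Agent.Q14.PL
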