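import Pool.Agent.Q14.PL.Lm3
import Pool.Agent.Q229.LC.Eng
import Pool.Agent.Q277.LC.Cnt

/-!
# Project LC2, job LMT
-/

set_option autoImplicit false

namespace Pool.Agent.Q14.PL

open Finset Matrix Q292.LC Q295.PL

/-- the variance in a large box -/
theorem box_var (hBXP : S_BXP) (d L : ℕ) [NeZero L] (hd : 1 ≤ d) (hL : 3 ≤ L)
    (z : Fin d → ZMod L) (S : ℕ) (hS1 : 1 ≤ S) (hS : S ≤ L) (G : (Fin d → ZMod L) → ℝ) :
    ∑ y ∈ Q292.LC.box z S, (G y - (∑ x ∈ Q292.LC.box z S, G x) / (S : ℝ) ^ d) ^ 2 ≤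
      d * (S : ℝ) ^ 2 * gE G / 2 := by
  have hS0 : (0 : ℝ) < S := by exact_mod_cast hS1
  have hc := card_box S hS z
  have hne : (Q292.LC.box z S).Nonempty := by
    rw [← card_pos]
    have : (0 : ℝ) < ((Q292.LC.box z S).card : ℝ) := by rw [hc]; positivity
    exact_mod_cast this
  have h1 := var_set (Q292.LC.box z S) G hne
  rw [hc] at h1
  rw [h1, div_le_div_iff₀ (by positivity) (by norm_num)]
  have h2 := hBXP d L hd hL z S hS1 hS G
  calc (∑ x ∈ Q292.LC.box z S, ∑ y ∈ Q292.LC.box z S, (G x - G y) ^ 2) * 2 ≤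
      (d * (S : ℝ) ^ (d + 2) * gE G) * 2 := mul_le_mul_of_nonneg_right h2 (by norm_num)
    _ = d * (S : ℝ) ^ 2 * gE G * (2 * (S : ℝ) ^ d) := by ring

/-- job LMT -/
theorem lmt (hWIN : S_WIN) (hBXP : S_BXP) : S_LMT := by
  intro d hd
  obtain ⟨CW, hCW1, hstage⟩ := stage (hWIN d hd) hd
  obtain ⟨CR, hCR1, hrng⟩ := rng d (by omega)
  obtain ⟨CH, hCH1, hchn⟩ := chn d hd
  obtain ⟨CHn, hCHn⟩ := exists_nat_ge CH
  obtain ⟨CC, hCC⟩ : ∃ CC, CC = CW + CR := ⟨_, rfl⟩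
  refine ⟨8 * CC + 8 * d ^ 2 + 16 * d + 4 * CHn + 43, 7 * d + 42, by omega, ?_⟩
  intro Z hZ L K lam r₁ ρ κ₀ r _ hlam hρ hκ hLZ hr₁ hr₁r hK hKL hrK hKr
  have hZ0 : 0 < Z := by omega
  have hZpow : ∀ k, k ≤ 7 * d + 42 → Z ^ k ≤ Z ^ (7 * d + 42) := fun k hk =>
    Nat.pow_le_pow_right hZ0 hk
  have hZ1 : Z ≤ Z ^ (7 * d + 42) := Nat.le_self_pow (by omega) Z
  obtain ⟨u, hu⟩ : ∃ u, u = 4 * Z ^ 3 := ⟨_, rfl⟩
  obtain ⟨R, hR⟩ : ∃ R, R = CC * (Z + 1) ^ 2 * u + 2 * Z + 2 := ⟨_, rfl⟩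
  obtain ⟨s, hs⟩ : ∃ s, s = Nat.sqrt K := ⟨_, rfl⟩
  obtain ⟨J, hJ⟩ : ∃ J, J = s / u := ⟨_, rfl⟩
  obtain ⟨z1, z2, z3, z4, z5⟩ := sizes d CC Z K L r s J R u hu hR hs hJ (by omega) (by omega)
    ((hZpow 42 (by omega)).trans hK) hKL hrK
  obtain ⟨ρ', hρ'⟩ : ∃ ρ', ρ' = d * r + J * R := ⟨_, rfl⟩
  rw [← hρ'] at z4
  have hK1 : 1 ≤ K := (Nat.one_le_pow _ _ hZ0).trans hK
  have hu1 : 1 ≤ u := by
    rw [hu]
    have := Nat.one_le_pow 3 Z hZ0
    omega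
  have hJ1 : 1 ≤ J := by
    rw [hJ]
    exact Nat.div_pos z2 (by omega)
  have hJs : J * u ≤ s := by
    rw [hJ]
    exact Nat.div_mul_le_self s u
  have hsK : s ≤ K := by
    rw [hs]
    exact Nat.sqrt_le_self K
  have hSL : 2 * ρ' + 1 ≤ L := z4.trans z5
  have hr1 : 1 ≤ r := by omega
  have hdr : d * 1 ≤ d * r := Nat.mul_le_mul_left _ hr1
  have hdr2 : 1 * r ≤ d * r := Nat.mul_le_mul_right _ (by omega)
  have hrρ : r ≤ ρ' := by omega
  have hL3 : 3 ≤ L := by omega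
  have hrL : r ≤ L := by omega
  have hlamL : lam < L := by omega
  have hR4 : 4 * R ≤ r₁ - ρ := by
    have h1 : 4 * R ≤ Z * Z ^ 7 := Nat.mul_le_mul (by omega) z3
    have h2 : Z * Z ^ 7 = Z ^ 8 := by ring
    have h3 := hZpow 8 (by omega)
    omega
  have hlamr : lam ≤ r₁ - ρ := by omega
  refine ⟨2 * CC + 4 * Z ^ 2 + 2, ?_⟩
  intro q hq σ hσ δ hδ1 hδ2 ω A hGd
  have hqpos : (0 : ℝ) < q := by
    have : 0 < q := by omega
    exact_mod_cast this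
  have hδ0 : 0 < δ := by
    by_contra hcon
    rw [not_lt] at hcon
    have := mul_nonpos_of_nonpos_of_nonneg hcon hqpos.le
    linarith
  have hqr : (2 * (CW + CR) + 2 : ℝ) ≤ q := by
    have : 2 * (CW + CR) + 2 ≤ q := by omega
    exact_mod_cast this
  have hCWδ : CW * δ ≤ 1 := by
    have : (0 : ℝ) ≤ CR := Nat.cast_nonneg CR
    nlinarith
  have hCRδ : CR * δ ≤ 1 := by
    have : (0 : ℝ) ≤ CW := Nat.cast_nonneg CW
    nlinarith
  have hδle : δ ≤ 1 := by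
    have : (0 : ℝ) ≤ CR := Nat.cast_nonneg CR
    have : (0 : ℝ) ≤ CW := Nat.cast_nonneg CW
    nlinarith
  have hEv : Ev σ q K lam (r₁ - ρ) ρ (κ₀ + 1) ω A := by
    refine Pool.Agent.Q277.LC.ge d L hL3 σ hσ q K lam (r₁ - ρ) ρ κ₀ ω A (by omega) hK1 ?_
    rw [Nat.sub_add_cancel (by omega)]
    exact hGd
  -- density
  have hA0 : ∀ v, (A ∩ bal v (r₁ - ρ)).card ≤ lam := by
    intro v
    have h1 := hEv.1 0 (Nat.zero_le _) v
    have h2 : A.image (gp (ed ∘ σ) ω (0 * (q * ms d L))) = A := by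
      rw [Nat.zero_mul]
      ext x
      simp [gp]
    rwa [h2] at h1
  have hcount : ∀ v, (A ∩ Q292.LC.box v r).card * r₁ ^ d ≤ Z ^ (d + 1) * r ^ d := by
    intro v
    have h1 := Pool.Agent.Q277.LC.cnt d L (by omega) hL3 A (r₁ - ρ) (d * r) lam (by omega) hA0 v
    have h2 : (A ∩ Q292.LC.box v r).card ≤ (A ∩ bal v (d * r)).card :=
      card_le_card (inter_subset_inter_left (box_sub_bal r v))
    exact dens d Z lam r₁ ρ r _ _ (by omega) (by omega) (by omega) hr₁r hlam (by omega) rfl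
      (h2.trans h1)
  have hr₁0 : (0 : ℝ) < (r₁ : ℝ) := by
    have : 0 < r₁ := by omega
    exact_mod_cast this
  have hhalf : ∀ v, ((A ∩ Q292.LC.box v r).card : ℝ) ≤ (r : ℝ) ^ d / 2 := by
    intro v
    have h1 := hcount v
    have h2 : 2 * Z ^ (d + 1) ≤ r₁ ^ d := by
      have e1 := hZpow (d + 1) (by omega)
      have e2 : r₁ ≤ r₁ ^ d := Nat.le_self_pow (by omega) r₁
      omega
    have h3 : r₁ ^ d * (2 * (A ∩ Q292.LC.box v r).card) ≤ r₁ ^ d * r ^ d := by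
      calc r₁ ^ d * (2 * (A ∩ Q292.LC.box v r).card) =
          2 * ((A ∩ Q292.LC.box v r).card * r₁ ^ d) := by ring
        _ ≤ 2 * (Z ^ (d + 1) * r ^ d) := Nat.mul_le_mul_left _ h1
        _ = 2 * Z ^ (d + 1) * r ^ d := by ring
        _ ≤ r₁ ^ d * r ^ d := Nat.mul_le_mul_right _ h2
    have h4 : 2 * (A ∩ Q292.LC.box v r).card ≤ r ^ d :=
      Nat.le_of_mul_le_mul_left h3 (Nat.pow_pos (by omega))
    have h5 : (2 : ℝ) * ((A ∩ Q292.LC.box v r).card : ℝ) ≤ (r : ℝ) ^ d := by exact_mod_cast h4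
    linarith
  refine ⟨hrL, ?_, ?_⟩
  · intro v
    have h1 : ((A ∩ Q292.LC.box v r).card : ℝ) * (r₁ : ℝ) ^ d ≤
        (Z : ℝ) ^ (d + 1) * (r : ℝ) ^ d := by exact_mod_cast hcount v
    have h2 : (Z : ℝ) ^ (d + 1) ≤ (Z : ℝ) ^ (7 * d + 42) := by
      exact_mod_cast hZpow (d + 1) (by omega)
    rw [div_mul_eq_mul_div, le_div_iff₀ (by positivity)]
    exact h1.trans (mul_le_mul_of_nonneg_right h2 (by positivity))
  -- the resolvent
  intro z w hw hw1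
  obtain ⟨hb1, hb2, hb3, -, hb5, -⟩ := Pool.Agent.Q68.LC.bas2 (Fin d → ZMod L) (ed ∘ σ) ω A δ
    hδ0.le hδle
  obtain ⟨S, hS⟩ : ∃ S : ℕ, S = 2 * ρ' + 1 := ⟨_, rfl⟩
  obtain ⟨Λ, hΛ⟩ : ∃ Λ : ℝ, Λ = 16 * (6 / (r : ℝ) ^ d + (4 * d * (S : ℝ) ^ 2 / (r : ℝ) ^ d +
    CH * (1 + Z) ^ 2) * (CW * (R : ℝ) ^ (d + 1) / J)) := ⟨_, rfl⟩
  have hΛ0 : 0 ≤ Λ := by
    rw [hΛ]
    have : 0 ≤ CH := by linarith
    positivity
  have hr0 : (0 : ℝ) < r := by exact_mod_cast hr1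
  have hS1 : 1 ≤ S := by omega
  have hSL' : S ≤ L := by omega
  have hlog : 1 + Real.log L ≤ 1 + Z := by
    have hLpos : (0 : ℝ) < L := by
      have : 0 < L := by omega
      exact_mod_cast this
    have := (Real.log_le_iff_le_exp hLpos).2 hLZ
    linarith
  have hlog0 : 0 ≤ Real.log L := Real.log_natCast_nonneg L
  have key : ∀ f : (Fin d → ZMod L) → ℝ, (phz r A z ⬝ᵥ f) ^ 2 ≤
      Λ * ∑ x, ∑ y, TT (ed ∘ σ) ω A δ (K * (q * ms d L)) x y * (f x - f y) ^ 2 := by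
    intro f
    obtain ⟨E, hE⟩ : ∃ E : ℝ, E = ∑ x, ∑ y, TT (ed ∘ σ) ω A δ (K * (q * ms d L)) x y *
      (f x - f y) ^ 2 := ⟨_, rfl⟩
    have hE0 : 0 ≤ E := by
      rw [hE]
      exact sum_nonneg fun x _ => sum_nonneg fun y _ => mul_nonneg (hb1 _ _ _) (sq_nonneg _)
    obtain ⟨j, hj, F, G, h1, h2, h3, h4⟩ := hstage L hL3 σ hσ ω A δ q u K J lam (r₁ - ρ) ρ
      (κ₀ + 1) R f hδ0 hCWδ hδ1 hδ2 hu1 hJ1 (hJs.trans hsK) hEv (by
        rw [hu]
        calc 4 * lam ^ 2 * (κ₀ + 1) ≤ 4 * Z ^ 2 * Z :=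
              Nat.mul_le_mul (Nat.mul_le_mul_left _ (Nat.pow_le_pow_left hlam 2)) hκ
          _ = 4 * Z ^ 3 := by ring) (by
        calc 4 * lam * ρ ≤ 4 * Z * Z := Nat.mul_le_mul (Nat.mul_le_mul_left _ hlam) hρ
          _ = 4 * Z ^ 2 := by ring
          _ ≤ q := by omega) (by
        rw [hR]
        calc CW * (lam + 1) * (ρ + 1) * u ≤ CC * (Z + 1) * (Z + 1) * u :=
              Nat.mul_le_mul_right _ (Nat.mul_le_mul (Nat.mul_le_mul (by omega) (by omega))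
                (by omega))
          _ = CC * (Z + 1) ^ 2 * u := by ring
          _ ≤ CC * (Z + 1) ^ 2 * u + 2 * Z + 2 := by omega) hR4 hlamr hlamL
    rw [← hE] at h4
    have hen := energy (TT (ed ∘ σ) ω A δ (K * (q * ms d L))) f (hb1 _) (hb2 _) (hb3 _)
    rw [← hE] at hen
    -- the range
    have hjJ : j * u ≤ K := (Nat.mul_le_mul_right u hj.le).trans (hJs.trans hsK)
    have hjL : j ≤ L := by
      have e1 : J * 1 ≤ J * u := Nat.mul_le_mul_left _ hu1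
      have e2 : s * 1 ≤ s * Z ^ 3 := Nat.mul_le_mul_left _ (Nat.one_le_pow _ _ hZ0)
      omega
    have hran : ∀ x, 1 / 2 ≤ ∑ y ∈ bal x (j * R), TT (ed ∘ σ) ω A δ (j * u * (q * ms d L)) x y := by
      intro x
      have e1 := hrng L hL3 σ hσ ω A δ q K lam (r₁ - ρ) ρ (κ₀ + 1) u j R (2 * Z) hδ0 hCRδ hδ1 hδ2
        hEv hjJ (by
          rw [hR]
          have e2 : CR * (lam + 1) * (ρ + 1) * u ≤ CC * (Z + 1) * (Z + 1) * u :=
            Nat.mul_le_mul_right _ (Nat.mul_le_mul (Nat.mul_le_mul (by omega) (by omega))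
              (by omega))
          have e3 : CC * (Z + 1) * (Z + 1) * u = CC * (Z + 1) ^ 2 * u := by ring
          omega) hR4 x
      have e2 : (j : ℝ) * Real.exp (-((2 * Z : ℕ) : ℝ)) ≤ 1 / 2 := by
        have e3 : (j : ℝ) ≤ Real.exp Z := le_trans (by exact_mod_cast hjL) hLZ
        have e4 : Real.exp Z * Real.exp (-((2 * Z : ℕ) : ℝ)) = Real.exp (-(Z : ℝ)) := by
          rw [← Real.exp_add]
          congr 1
          push_cast
          ring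
        have e5 : Real.exp (-(Z : ℝ)) ≤ 1 / 2 := by
          rw [Real.exp_neg, ← one_div]
          have e6 : (2 : ℝ) ≤ Real.exp Z := by
            have e7 := Real.add_one_le_exp (Z : ℝ)
            have e8 : (1 : ℝ) ≤ Z := by exact_mod_cast hZ0
            linarith
          exact one_div_le_one_div_of_le (by norm_num) e6
        calc (j : ℝ) * Real.exp (-((2 * Z : ℕ) : ℝ)) ≤
            Real.exp Z * Real.exp (-((2 * Z : ℕ) : ℝ)) :=
              mul_le_mul_of_nonneg_right e3 (Real.exp_pos _).le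
          _ ≤ 1 / 2 := by rw [e4]; exact e5
      linarith
    have hjR : j * R ≤ J * R := Nat.mul_le_mul_right _ hj.le
    obtain ⟨c', hc'⟩ : ∃ c' : ℝ, c' = (∑ x, G x) / (L : ℝ) ^ d := ⟨_, rfl⟩
    have hJ0 : (0 : ℝ) < J := by exact_mod_cast hJ1
    have hgE0 : 0 ≤ gE G := by
      unfold gE
      exact sum_nonneg fun _ _ => sq_nonneg _
    have main : ∀ z' : Fin d → ZMod L, (∑ x, chi r A z' x * f x - c') ^ 2 ≤
        4 * (6 / (r : ℝ) ^ d + (4 * d * (S : ℝ) ^ 2 / (r : ℝ) ^ d + CH * (1 + Z) ^ 2) *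
          (CW * (R : ℝ) ^ (d + 1) / J)) * E := by
      intro z'
      obtain ⟨v, hv⟩ : ∃ v : Fin d → ZMod L, v = fun i => z' i - (ρ' : ZMod L) := ⟨_, rfl⟩
      obtain ⟨c, hc⟩ : ∃ c : ℝ, c = (∑ x ∈ Q292.LC.box v S, G x) / (S : ℝ) ^ d := ⟨_, rfl⟩
      obtain ⟨g1, g2⟩ := chi_sum r hr1 hrL A z' (hhalf z')
      have hcmp := compare (TT (ed ∘ σ) ω A δ (j * u * (q * ms d L))) f F G (chi r A z')
        (2 / (r : ℝ) ^ d) (fun x => bal x (j * R))
        (A.image (gp (ed ∘ σ) ω (j * u * (q * ms d L)))) (Q292.LC.box v S) c c'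
        (hb1 _) (hb2 _) (hb3 _) (chi_nonneg r A z') g1 g2 hran
        (fun x hx => hb5 _ x (chi_ne r A z' x hx).2) h3 (by
          intro x hx y hy
          have e1 := box_sub_bal r z' (chi_ne r A z' x hx).1
          rw [Pool.Agent.Q151.LC.mem_bal] at e1 hy
          have e2 : y ∈ bal z' ρ' := by
            rw [Pool.Agent.Q151.LC.mem_bal]
            have := Pool.Agent.Q151.LC.td_tri z' x y
            omega
          have e3 := bal_sub_box ρ' hSL z' e2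
          rw [hv, hS]
          exact e3)
      rw [← h1] at hcmp
      have q1 := box_var hBXP d L (by omega) hL3 v S hS1 hSL' G
      rw [← hc] at q1
      have q2 := hchn L hL3 v S hS1 hSL' G
      rw [← hc, ← hc'] at q2
      have q3 : CH * (1 + Real.log L) ^ 2 * gE G ≤ CH * (1 + Z) ^ 2 * gE G := by
        refine mul_le_mul_of_nonneg_right (mul_le_mul_of_nonneg_left ?_ (by linarith)) hgE0
        exact pow_le_pow_left₀ (by linarith) hlog 2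
      have hX0 : (0 : ℝ) ≤ 2 / (r : ℝ) ^ d := by positivity
      have q4 : 2 / (r : ℝ) ^ d * ∑ x, (f x - (TT (ed ∘ σ) ω A δ (K * (q * ms d L)) *ᵥ f) x) ^ 2 ≤
          2 / (r : ℝ) ^ d * E := mul_le_mul_of_nonneg_left hen.1 hX0
      have q5 : 2 / (r : ℝ) ^ d * (2 * (∑ x, (F x) ^ 2 -
          ∑ x, ((TT (ed ∘ σ) ω A δ (K * (q * ms d L)) *ᵥ f) x) ^ 2)) ≤
          2 / (r : ℝ) ^ d * (2 * E) := mul_le_mul_of_nonneg_left (by linarith [hen.2]) hX0
      have q6 : 4 * (2 / (r : ℝ) ^ d) * ∑ y ∈ Q292.LC.box v S, (G y - c) ^ 2 ≤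
          4 * (2 / (r : ℝ) ^ d) * (d * (S : ℝ) ^ 2 * gE G / 2) :=
        mul_le_mul_of_nonneg_left q1 (by positivity)
      have q7 : (4 * d * (S : ℝ) ^ 2 / (r : ℝ) ^ d + CH * (1 + Z) ^ 2) * gE G ≤
          (4 * d * (S : ℝ) ^ 2 / (r : ℝ) ^ d + CH * (1 + Z) ^ 2) *
            (CW * (R : ℝ) ^ (d + 1) * (E / J)) :=
        mul_le_mul_of_nonneg_left h4 (by
          have : 0 ≤ CH := by linarith
          positivity)
      refine hcmp.trans ?_
      have t1 : 4 * (2 / (r : ℝ) ^ d) * (d * (S : ℝ) ^ 2 * gE G / 2) =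
          4 * d * (S : ℝ) ^ 2 / (r : ℝ) ^ d * gE G := by ring
      have t2 : 4 * (6 / (r : ℝ) ^ d + (4 * d * (S : ℝ) ^ 2 / (r : ℝ) ^ d + CH * (1 + Z) ^ 2) *
          (CW * (R : ℝ) ^ (d + 1) / J)) * E = 4 * (2 / (r : ℝ) ^ d * E +
          2 / (r : ℝ) ^ d * (2 * E) + (4 * d * (S : ℝ) ^ 2 / (r : ℝ) ^ d + CH * (1 + Z) ^ 2) *
            (CW * (R : ℝ) ^ (d + 1) * (E / J))) := by ring
      rw [t2]
      rw [t1] at q6
      have t3 : (4 * d * (S : ℝ) ^ 2 / (r : ℝ) ^ d + CH * (1 + Z) ^ 2) * gE G =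
          4 * d * (S : ℝ) ^ 2 / (r : ℝ) ^ d * gE G + CH * (1 + Z) ^ 2 * gE G := by ring
      linarith
    have hfin := phz_sq r A f c' _ main z
    rw [← hE]
    refine hfin.trans (le_of_eq ?_)
    rw [hΛ]
    ring
  have hres := Pool.Agent.Q229.LC.Eng.eng (Fin d → ZMod L) (ed ∘ σ) ω A (K * (q * ms d L)) δ w Λ
    (phz r A z) hδ0.le hδle hw hw1 hΛ0 (phz_A r A z) key
  refine hres.trans ?_
  obtain ⟨t, ht1, ht8, htK⟩ := root8 K hK1
  rw [htK, hΛ]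
  have ht0 : 0 < t := by linarith
  have hs1 : 1 ≤ s := hu1.trans z2
  have hts : t ^ 4 ≤ 2 * s := by
    have e1 : K < (s + 1) ^ 2 := by
      rw [hs]
      exact Nat.lt_succ_sqrt' K
    have e2 : (s + 1) ^ 2 ≤ (2 * s) ^ 2 := Nat.pow_le_pow_left (by omega) 2
    have e3 : K ≤ (2 * s) ^ 2 := by omega
    have e4 : (K : ℝ) ≤ (2 * (s : ℝ)) ^ 2 := by exact_mod_cast e3
    rw [← ht8] at e4
    have e5 : (t ^ 4) ^ 2 ≤ (2 * (s : ℝ)) ^ 2 := by
      calc (t ^ 4) ^ 2 = t ^ 8 := by ring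
        _ ≤ _ := e4
    exact (pow_le_pow_iff_left₀ (by positivity) (by positivity) (by norm_num)).1 e5
  have hJ0 : (0 : ℝ) < J := by exact_mod_cast hJ1
  have hnum := num d hd CH CW Z t r S R J
    (by
      have : 40 ≤ Z := by omega
      exact_mod_cast this)
    (by
      have : 16 * d + 1 ≤ Z := by omega
      exact_mod_cast this)
    (by linarith)
    (by
      have e1 : 4 * CHn ≤ Z := by omega
      have e2 : 4 * (CHn : ℝ) ≤ Z := by exact_mod_cast e1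
      linarith)
    (Nat.cast_nonneg CW)
    (by
      have : CW ≤ Z := by omega
      exact_mod_cast this)
    ht1 (by exact_mod_cast hr1)
    (by
      have e1 : (K : ℝ) ^ 7 ≤ (2 * (r : ℝ)) ^ 16 := by exact_mod_cast hKr
      rw [← ht8] at e1
      have e2 : (t ^ 7) ^ 8 ≤ ((2 * (r : ℝ)) ^ 2) ^ 8 := by
        calc (t ^ 7) ^ 8 = (t ^ 8) ^ 7 := by ring
          _ ≤ (2 * (r : ℝ)) ^ 16 := e1
          _ = ((2 * (r : ℝ)) ^ 2) ^ 8 := by ring
      exact (pow_le_pow_iff_left₀ (by positivity) (by positivity) (by norm_num)).1 e2)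
    (by
      have e1 : S ^ 2 ≤ (s * Z ^ 3) ^ 2 := Nat.pow_le_pow_left (by omega) 2
      have e2 : s ^ 2 ≤ K := by
        rw [hs]
        exact Nat.sqrt_le' K
      have e3 : S ^ 2 ≤ K * Z ^ 6 := by
        calc S ^ 2 ≤ (s * Z ^ 3) ^ 2 := e1
          _ = s ^ 2 * Z ^ 6 := by ring
          _ ≤ K * Z ^ 6 := Nat.mul_le_mul_right _ e2
      have e4 : (S : ℝ) ^ 2 ≤ (K : ℝ) * (Z : ℝ) ^ 6 := by exact_mod_cast e3
      rw [ht8]
      exact e4)
    (Nat.cast_nonneg R) (by exact_mod_cast z3) hJ0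
    (by
      have e1 : s < (J + 1) * u := by
        rw [hJ, Nat.add_mul, one_mul]
        exact Nat.lt_div_mul_add (by omega)
      have e2 : (J + 1) * u ≤ (2 * J) * u := Nat.mul_le_mul_right _ (by omega)
      have e3 : s ≤ 2 * J * u := by omega
      have e4 : (s : ℝ) ≤ 2 * (J : ℝ) * (4 * (Z : ℝ) ^ 3) := by
        rw [hu] at e3
        exact_mod_cast e3
      rw [div_le_div_iff₀ hJ0 (by positivity)]
      linarith)
  have hP0 : 0 ≤ 1 / t ^ 3 := by positivity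
  have hZr : (Z : ℝ) ^ (7 * d + 22) ≤ (Z : ℝ) ^ (7 * d + 42) := by
    exact_mod_cast hZpow (7 * d + 22) (by omega)
  refine le_trans (le_of_eq ?_) (hnum.trans (mul_le_mul_of_nonneg_right hZr hP0))
  ring

end Pool.Agent.Q14.PL
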